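import Pool.Agent.H18.SF.OR
import Pool.Agent.H53.NR.Targets

/-!
# Structures with symbols and places in finite types
-/

set_option autoImplicit false

namespace Pool.Agent.H50.PT

open Pool.Agent.H68.BP Pool.Agent.H58.SF Pool.Agent.H53.GC Pool.Agent.H53.NR
open Function

section num

variable {S : Type} {Ar : S → Type} [Finite S] [∀ s, Finite (Ar s)] {W Y : Type}

theorem exists_strOn (𝕏 : Str (sigOf S Ar) W) :
    ∃ R : (s : S) → (Ar s → W) → Prop, 𝕏 = strOn R := by
  refine ⟨fun s x => ∃ (l : Fin (sigOf S Ar).m) (h : (Finite.equivFin S).symm l = s),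
    𝕏 l (fun i => x (h ▸ (Finite.equivFin (Ar ((Finite.equivFin S).symm l))).symm i)), ?_⟩
  funext l x
  refine propext ⟨fun h => ⟨l, rfl, ?_⟩, ?_⟩
  · have e : (fun i : Fin ((sigOf S Ar).ar l) => x (Finite.equivFin
        (Ar ((Finite.equivFin S).symm l)) ((Finite.equivFin
          (Ar ((Finite.equivFin S).symm l))).symm i))) = x := by
      funext i
      exact congrArg x (Equiv.apply_symm_apply _ _)
    exact e.symm ▸ h
  · rintro ⟨l', h, h2⟩
    obtain rfl : l' = l := (Finite.equivFin S).symm.injective h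
    have e : (fun i : Fin ((sigOf S Ar).ar l') => x (Finite.equivFin
        (Ar ((Finite.equivFin S).symm l')) ((Finite.equivFin
          (Ar ((Finite.equivFin S).symm l'))).symm i))) = x := by
      funext i
      exact congrArg x (Equiv.apply_symm_apply _ _)
    exact e ▸ h2

theorem strOn_all {R : (s : S) → (Ar s → W) → Prop} {R' : (s : S) → (Ar s → Y) → Prop}
    {f : W → Y} :
    (∀ (l : Fin (sigOf S Ar).m) (x : Fin ((sigOf S Ar).ar l) → W), strOn R l x ↔
      strOn R' l (fun i => f (x i))) ↔ ∀ s x, R s x ↔ R' s (fun i => f (x i)) := by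
  constructor
  · intro h
    have h1 : ∀ (l : Fin (sigOf S Ar).m) (x : Ar ((Finite.equivFin S).symm l) → W),
        R _ x ↔ R' _ (fun i => f (x i)) := by
      intro l x
      have h2 := h l (fun i => x ((Finite.equivFin (Ar ((Finite.equivFin S).symm l))).symm i))
      have e1 : (fun p => x ((Finite.equivFin (Ar ((Finite.equivFin S).symm l))).symm
          (Finite.equivFin (Ar ((Finite.equivFin S).symm l)) p))) = x := by
        funext p
        exact congrArg x (Equiv.symm_apply_apply _ _)
      have h3 : R _ (fun p => x ((Finite.equivFin (Ar ((Finite.equivFin S).symm l))).symm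
          (Finite.equivFin (Ar ((Finite.equivFin S).symm l)) p))) ↔
          R' _ (fun p => f (x ((Finite.equivFin (Ar ((Finite.equivFin S).symm l))).symm
          (Finite.equivFin (Ar ((Finite.equivFin S).symm l)) p)))) := h2
      rw [e1] at h3
      rw [h3]
      refine iff_of_eq (congrArg _ (funext fun p => ?_))
      exact congrArg (fun p => f (x p)) (Equiv.symm_apply_apply _ _)
    intro s
    have h2 := h1 (Finite.equivFin S s)
    rw [Equiv.symm_apply_apply] at h2
    exact h2
  · intro h l x
    exact h _ _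

theorem emb_strOn {R : (s : S) → (Ar s → W) → Prop} {R' : (s : S) → (Ar s → Y) → Prop}
    {f : W → Y} :
    IsEmb (strOn R) (strOn R') f ↔ Injective f ∧ ∀ s x, R s x ↔ R' s (fun i => f (x i)) :=
  and_congr Iff.rfl strOn_all

theorem aut_strOn {R : (s : S) → (Ar s → W) → Prop} {g : W ≃ W} :
    IsAut (strOn R) g ↔ ∀ s x, R s x ↔ R s (fun i => g (x i)) := strOn_all

theorem irr_strOn {R : (s : S) → (Ar s → W) → Prop} :
    Irreducible (strOn R) ↔ ∀ x y, x ≠ y → ∃ s z, R s z ∧ (∃ i, z i = x) ∧ ∃ i, z i = y := by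
  constructor
  · intro h x y hxy
    obtain ⟨l, z, h1, ⟨i, hi⟩, j, hj⟩ := h x y hxy
    refine ⟨_, _, h1, ⟨(Finite.equivFin _).symm i, ?_⟩, (Finite.equivFin _).symm j, ?_⟩
    · rw [← hi]
      exact congrArg z (Equiv.apply_symm_apply _ _)
    · rw [← hj]
      exact congrArg z (Equiv.apply_symm_apply _ _)
  · intro h x y hxy
    have key : ∀ (s s' : S) (hs : s' = s) (z : Ar s → W), R s z → (∃ i, z i = x) →
        (∃ i, z i = y) → ∃ z' : Ar s' → W, R s' z' ∧ (∃ i, z' i = x) ∧ ∃ i, z' i = y := by
      rintro s _ rfl z h1 h2 h3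
      exact ⟨z, h1, h2, h3⟩
    obtain ⟨s, z, h1, h2, h3⟩ := h x y hxy
    obtain ⟨z', h4, ⟨i, hi⟩, j, hj⟩ := key s ((Finite.equivFin S).symm (Finite.equivFin S s))
      (Equiv.symm_apply_apply _ _) z h1 h2 h3
    refine ⟨Finite.equivFin S s, fun i => z' ((Finite.equivFin _).symm i), ?_,
      ⟨Finite.equivFin _ i, ?_⟩, Finite.equivFin _ j, ?_⟩
    · have e1 : (fun p => z' ((Finite.equivFin (Ar ((Finite.equivFin S).symm
          (Finite.equivFin S s)))).symm (Finite.equivFin (Ar ((Finite.equivFin S).symm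
            (Finite.equivFin S s))) p))) = z' := by
        funext p
        exact congrArg z' (Equiv.symm_apply_apply _ _)
      change R _ (fun p => z' ((Finite.equivFin (Ar ((Finite.equivFin S).symm
          (Finite.equivFin S s)))).symm (Finite.equivFin (Ar ((Finite.equivFin S).symm
            (Finite.equivFin S s))) p)))
      rw [e1]
      exact h4
    · rw [← hi]
      exact congrArg z' (Equiv.symm_apply_apply _ _)
    · rw [← hj]
      exact congrArg z' (Equiv.symm_apply_apply _ _)

end num

section aut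

variable {τ : Sig} {B : Type} {𝔹 : Str τ B}

/-- homogeneity for tuples with any finite index type -/
theorem exists_aut (hH : Homogeneous 𝔹) {I : Type} [Finite I] (x y : I → B)
    (h1 : ∀ i j, x i = x j ↔ y i = y j)
    (h2 : ∀ (l : Fin τ.m) (w : Fin (τ.ar l) → I), 𝔹 l (fun i => x (w i)) ↔
      𝔹 l (fun i => y (w i))) : ∃ g : B ≃ B, IsAut 𝔹 g ∧ ∀ i, g (x i) = y i := by
  let e := Finite.equivFin I
  obtain ⟨g, hg, hg'⟩ := Pool.Agent.H18.SF.exists_aut_of_ty hH (fun i => y (e.symm i))
    (fun i => x (e.symm i)) (by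
      refine Prod.ext ?_ ?_
      · funext i j
        exact propext (h1 _ _).symm
      · funext l w
        exact propext (h2 l (fun i => e.symm (w i))).symm)
  refine ⟨g, hg, fun i => ?_⟩
  have h3 := hg' (e i)
  simp only [Equiv.symm_apply_apply] at h3
  exact h3

end aut

end Pool.Agent.H50.PT
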