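import Pool.Agent.H50.PT.FB
import Pool.Agent.H50.SO.RED

/-!
# Reducts with parameters
-/

set_option autoImplicit false

namespace Pool.Agent.H50.PT

open Pool.Agent.H68.BP Pool.Agent.H58.SF Pool.Agent.H53.GC Pool.Agent.H53.NR
open Function

/-- Structures with homomorphisms in both directions pp-construct `K₃` together. -/
theorem ppc_of_homs {σ : Sig} {A A' : Type} {𝔸 : Str σ A} {𝔸' : Str σ A'} {f : A → A'}
    {g : A' → A} (hf : IsHom 𝔸 𝔸' f) (hg : IsHom 𝔸' 𝔸 g) (h : PPConstructsK3 𝔸') :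
    PPConstructsK3 𝔸 := by
  obtain ⟨n, E', hn, ⟨q, φ, hφ⟩, ⟨t, ht⟩, c, hc⟩ := h
  -- preservation of atoms
  have hat : ∀ {A₁ A₂ : Type} {𝔸₁ : Str σ A₁} {𝔸₂ : Str σ A₂} {k : A₁ → A₂}, IsHom 𝔸₁ 𝔸₂ k →
      ∀ {X : Type} (v : X → A₁) (a : Atom σ X), a.Holds 𝔸₁ v → a.Holds 𝔸₂ (fun x => k (v x)) := by
    intro A₁ A₂ 𝔸₁ 𝔸₂ k hk X v a ha
    cases a with
    | eq x y => exact congrArg k ha
    | rel l t => exact hk l _ ha
  have hel : ∀ {A₁ A₂ : Type} (k : A₁ → A₂) {I J : Type} (x : I → A₁) (y : J → A₁),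
      (fun i => k (Sum.elim x y i)) = Sum.elim (fun i => k (x i)) (fun j => k (y j)) := by
    intro A₁ A₂ k I J x y
    funext i
    rcases i with i | i <;> rfl
  refine ⟨n, fun u v => ∃ y : Fin q → A, ∀ a ∈ φ, a.Holds 𝔸 (Sum.elim (Sum.elim u v) y), hn,
    ⟨q, φ, fun x => ?_⟩, ⟨fun a i => g (t a i), fun a b hab => ?_⟩,
    ⟨fun u => c (fun i => f (u i)), fun u v huv => ?_⟩⟩
  · have e : Sum.elim (fun i => x (Sum.inl i)) (fun i => x (Sum.inr i)) = x := by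
      funext i
      rcases i with i | i <;> rfl
    change (∃ y : Fin q → A, ∀ a ∈ φ, a.Holds 𝔸 (Sum.elim
      (Sum.elim (fun i => x (Sum.inl i)) (fun i => x (Sum.inr i))) y)) ↔ _
    rw [e]
  · have h1 := (hφ (Sum.elim (t a) (t b))).1 (ht a b hab)
    obtain ⟨y, hy⟩ := h1
    refine ⟨fun j => g (y j), fun α hα => ?_⟩
    have h2 := hat hg _ α (hy α hα)
    rw [hel, hel] at h2
    exact h2
  · obtain ⟨y, hy⟩ := huv
    refine hc _ _ ((hφ (Sum.elim (fun i => f (u i)) (fun i => f (v i)))).2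
      ⟨fun j => f (y j), fun α hα => ?_⟩)
    have h2 := hat hf _ α (hy α hα)
    rw [hel, hel] at h2
    exact h2

/-- The theorem for structures which are invariant under all automorphisms. -/
def T_FRE : Prop :=
  ∀ (τ σ : Sig) (B : Type) [Countable B] [Nonempty B] (𝔹 : Str τ B) (𝔸 : Str σ B) (M : ℕ),
    (∀ l, 1 ≤ τ.ar l) → Homogeneous 𝔹 → FreelyBounded 𝔹 M →
    (∀ g : B ≃ B, IsAut 𝔹 g → IsAut 𝔸 g) →
    PPConstructsK3 𝔸 ∨ ∃ (σ' : Sig) (Y : Type) (_ : Finite Y) (𝕋 : Str σ' Y),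
      ¬ PPConstructsK3 𝕋 ∧ N793a5b8e.ManyOneReducible (CSP 𝔸) (CSP 𝕋)

/-- The theorem for structures which are invariant under the automorphisms fixing the elements of a
finite set. -/
theorem params (hFRE : T_FRE) (τ σ : Sig) (B : Type) [Countable B] [Nonempty B] (𝔹 : Str τ B)
    (𝔸 : Str σ B) (M : ℕ) (har : ∀ l, 1 ≤ τ.ar l) (hH : Homogeneous 𝔹)
    (hF : FreelyBounded 𝔹 M) (C : Set B) (hC : C.Finite)
    (hS : ∀ g : B ≃ B, IsAut 𝔹 g → (∀ x ∈ C, g x = x) → IsAut 𝔸 g) :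
    PPConstructsK3 𝔸 ∨ ∃ (σ' : Sig) (Y : Type) (_ : Finite Y) (𝕋 : Str σ' Y),
      ¬ PPConstructsK3 𝕋 ∧ N793a5b8e.ManyOneReducible (CSP 𝔸) (CSP 𝕋) := by
  classical
  have : Finite C := hC.to_subtype
  let e : C ≃ Fin (Nat.card C) := Finite.equivFin C
  let cst : Fin (Nat.card C) → B := fun j => (e.symm j : C)
  have hcst : Injective cst := Subtype.val_injective.comp e.symm.injective
  have hCc : ∀ x ∈ C, ∃ j, cst j = x := fun x hx => ⟨e ⟨x, hx⟩, by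
    simp only [cst, Equiv.symm_apply_apply]⟩
  have hS' : ∀ g : B ≃ B, IsAut 𝔹 g → (∀ j, g (cst j) = cst j) → IsAut 𝔸 g := by
    intro g hg hgc
    refine hS g hg fun x hx => ?_
    obtain ⟨j, rfl⟩ := hCc x hx
    exact hgc j
  let M' := max (max M 1) τ.width
  have hF' : FreelyBounded 𝔹 M' := fun n 𝕏 hX => hF n 𝕏 fun m s hm =>
    hX m s (hm.trans ((le_max_left M 1).trans (le_max_left _ _)))
  have hw : ∀ l, 1 ≤ τ.ar l ∧ τ.ar l ≤ M' := fun l =>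
    ⟨har l, (Finset.le_sup (f := τ.ar) (Finset.mem_univ l)).trans (le_max_right _ _)⟩
  have hfb := fb_BS hH hF' hcst hw ((le_max_right M 1).trans (le_max_left _ _))
  have hsec : ∀ b : B, ∃ b' : BP cst, cl cst b' = b := by
    intro b
    by_cases h : ∀ j, b ≠ cst j
    · exact ⟨Sum.inl ⟨b, h⟩, rfl⟩
    · push Not at h
      obtain ⟨j, hj⟩ := h
      exact ⟨Sum.inr (j, 0), hj.symm⟩
  choose s hs using hsec
  have : Nonempty (BP cst) := ⟨s (Classical.arbitrary B)⟩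
  let 𝔸' : Str σ (BP cst) := fun l x => 𝔸 l (fun i => cl cst (x i))
  have h1 : IsHom 𝔸 𝔸' s := by
    intro l x hx
    change 𝔸 l (fun i => cl cst (s (x i)))
    simp only [hs]
    exact hx
  have h2 : IsHom 𝔸' 𝔸 (cl cst) := fun l x hx => hx
  have har' : ∀ l, 1 ≤ (sigOf (Sy τ (Nat.card C)) ArS).ar l := by
    intro l
    have h3 : ∀ t : Sy τ (Nat.card C), 1 ≤ Nat.card (ArS t) := by
      rintro (p | j)
      · obtain ⟨i, hi⟩ := p.2
        have : Nonempty (ArS (Sum.inl p : Sy τ (Nat.card C))) := ⟨⟨i, hi⟩⟩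
        exact Nat.one_le_iff_ne_zero.2 Finite.card_pos.ne'
      · have : Nonempty (ArS (Sum.inr j : Sy τ (Nat.card C))) := ⟨()⟩
        exact Nat.one_le_iff_ne_zero.2 Finite.card_pos.ne'
    exact h3 _
  have hinv : ∀ g : BP cst ≃ BP cst, IsAut (BS 𝔹 cst) g → IsAut 𝔸' g := by
    intro g' hg' l x
    obtain ⟨g, hg, hgc, hgx⟩ := key hH x (fun i => g' (x i))
      (fun i j => by rw [g'.injective.eq_iff]) (fun t z => aut_strOn.1 hg' t (fun i => x (z i)))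
    have h3 := hS' g hg hgc l (fun i => cl cst (x i))
    change 𝔸 l (fun i => cl cst (x i)) ↔ 𝔸 l (fun i => cl cst (g' (x i)))
    rw [h3]
    simp only [hgx]
  rcases hFRE _ σ (BP cst) (BS 𝔹 cst) 𝔸' M' har' (hom_BS hH) hfb hinv with h | ⟨σ', Y, hY, 𝕋, h3, h4⟩
  · exact Or.inl (ppc_of_homs h1 h2 h)
  · refine Or.inr ⟨σ', Y, hY, 𝕋, h3, ?_⟩
    have h5 : CSP 𝔸 = CSP 𝔸' := Pool.Agent.H50.SO.csp_congr fun n 𝕏 =>
      ⟨fun ⟨f, hf⟩ => ⟨fun i => s (f i), fun l x hx => h1 l _ (hf l x hx)⟩,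
        fun ⟨f, hf⟩ => ⟨fun i => cl cst (f i), fun l x hx => h2 l _ (hf l x hx)⟩⟩
    rw [h5]
    exact h4

end Pool.Agent.H50.PT
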