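import Pool.Agent.H50.PT.CPB

/-!
# Structures over finitely many points: the theorem for structures with completions
-/

set_option autoImplicit false

namespace Pool.Agent.H50.PT

open Pool.Agent.H68.BP Pool.Agent.H58.SF Pool.Agent.H53.GC Pool.Agent.H53.NR
open Pool.Agent.H44.CM (Completable CompB)
open Function

/-- The theorem for structures which are invariant under all automorphisms. -/
def T_CMF : Prop :=
  ∀ (τ σ : Sig) (B : Type) [Countable B] [Nonempty B] (𝔹 : Str τ B) (𝔸 : Str σ B),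
    (∀ l, 1 ≤ τ.ar l) → Homogeneous 𝔹 → Completable 𝔹 →
    (∀ g : B ≃ B, IsAut 𝔹 g → IsAut 𝔸 g) →
    PPConstructsK3 𝔸 ∨ ∃ (σ' : Sig) (Y : Type) (_ : Finite Y) (𝕋 : Str σ' Y),
      ¬ PPConstructsK3 𝕋 ∧ N793a5b8e.ManyOneReducible (CSP 𝔸) (CSP 𝕋)

/-- The theorem for structures which are invariant under the automorphisms fixing the elements of a
finite set. -/
theorem params_cm (hCMF : T_CMF) (τ σ : Sig) (B : Type) [Countable B] [Nonempty B] (𝔹 : Str τ B)
    (𝔸 : Str σ B) (hH : Homogeneous 𝔹) (hF : Completable 𝔹) (C : Set B) (hC : C.Finite)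
    (hS : ∀ g : B ≃ B, IsAut 𝔹 g → (∀ x ∈ C, g x = x) → IsAut 𝔸 g) :
    PPConstructsK3 𝔸 ∨ ∃ (σ' : Sig) (Y : Type) (_ : Finite Y) (𝕋 : Str σ' Y),
      ¬ PPConstructsK3 𝕋 ∧ N793a5b8e.ManyOneReducible (CSP 𝔸) (CSP 𝕋) := by
  have : Finite C := hC.to_subtype
  let e : C ≃ Fin (Nat.card C) := Finite.equivFin C
  let cst : Fin (Nat.card C) → B := fun j => (e.symm j : C)
  have hcst : Injective cst := Subtype.val_injective.comp e.symm.injective
  have hCc : ∀ x ∈ C, ∃ j, cst j = x := fun x hx => ⟨e ⟨x, hx⟩, by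
    simp only [cst, Equiv.symm_apply_apply]⟩
  have hS' : ∀ g : B ≃ B, IsAut 𝔹 g → (∀ j, g (cst j) = cst j) → IsAut 𝔸 g := by
    intro g hg hgc
    refine hS g hg fun x hx => ?_
    obtain ⟨j, rfl⟩ := hCc x hx
    exact hgc j
  have har' : ∀ l, 1 ≤ (sigOf (Sy τ (Nat.card C)) ArS).ar l := by
    intro l
    have h3 : ∀ t : Sy τ (Nat.card C), 1 ≤ Nat.card (ArS t) := by
      rintro (p | j)
      · obtain ⟨i, hi⟩ := p.2
        have : Nonempty (ArS (Sum.inl p : Sy τ (Nat.card C))) := ⟨⟨i, hi⟩⟩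
        exact Nat.one_le_iff_ne_zero.2 Finite.card_pos.ne'
      · have : Nonempty (ArS (Sum.inr j : Sy τ (Nat.card C))) := ⟨()⟩
        exact Nat.one_le_iff_ne_zero.2 Finite.card_pos.ne'
    exact h3 _
  refine hCMF _ σ B (CS 𝔹 cst) 𝔸 har' (hom_CS hH) (completable_CS hH hF hcst) ?_
  intro g' hg' l x
  obtain ⟨g, hg, hgc, hgx⟩ := aut_of_CS hH hg' x
  rw [hS' g hg hgc l x]
  simp only [hgx]

end Pool.Agent.H50.PT
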