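import Pool.Agent.H50.PT.DF

/-!
# Structures over finitely many points, on the same set

`cst` is a finite tuple of different elements of the structure `𝔹`. The new structure has the same
elements. Its relations are the relations of `𝔹` where some of the places are filled by elements of
the tuple, restricted to the other elements, and the elements of the tuple.
-/

set_option autoImplicit false

namespace Pool.Agent.H50.PT

open Pool.Agent.H68.BP Pool.Agent.H58.SF Pool.Agent.H53.GC Pool.Agent.H53.NR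
open Function

section defs

variable {τ : Sig} {B : Type} {q : ℕ}

/-- the relations over the points -/
def RC (𝔹 : Str τ B) (cst : Fin q → B) : (s : Sy τ q) → (ArS s → B) → Prop
  | Sum.inl p, x => (∀ i j, x i ≠ cst j) ∧ 𝔹 p.1.1 (fun i => Sum.elim id cst (fl p.1.2 x i))
  | Sum.inr j, x => x () = cst j

/-- the structure over the points -/
noncomputable def CS (𝔹 : Str τ B) (cst : Fin q → B) : Str (sigOf (Sy τ q) ArS) B :=
  strOn (RC 𝔹 cst)

variable {𝔹 : Str τ B} {cst : Fin q → B}

/-- Tuples of the same type over the points are conjugate over the points. -/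
theorem keyC (hH : Homogeneous 𝔹) {I : Type} [Finite I] (x y : I → B)
    (h1 : ∀ i j, x i = x j ↔ y i = y j)
    (h2 : ∀ (s : Sy τ q) (z : ArS s → I), RC 𝔹 cst s (fun i => x (z i)) ↔
      RC 𝔹 cst s (fun i => y (z i))) :
    ∃ g : B ≃ B, IsAut 𝔹 g ∧ (∀ j, g (cst j) = cst j) ∧ ∀ i, g (x i) = y i := by
  -- the kinds
  have hk : ∀ i j, x i = cst j ↔ y i = cst j := fun i j => h2 (Sum.inr j) (fun _ => i)
  have hkind2 : ∀ a : I ⊕ Fin q, (∃ j, Sum.elim x cst a = cst j ∧
      Sum.elim y cst a = cst j) ∨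
      ∃ i, a = Sum.inl i ∧ (∀ j, x i ≠ cst j) ∧ ∀ j, y i ≠ cst j := by
    rintro (i | j)
    · by_cases h : ∃ j, x i = cst j
      · obtain ⟨j, hj⟩ := h
        exact Or.inl ⟨j, hj, (hk i j).1 hj⟩
      · push Not at h
        exact Or.inr ⟨i, rfl, h, fun j hj => h j ((hk i j).2 hj)⟩
    · exact Or.inl ⟨j, rfl, rfl⟩
  obtain ⟨g, hg, hgx⟩ := exists_aut hH (Sum.elim x cst) (Sum.elim y cst) (by
      intro a b
      rcases hkind2 a with ⟨j, ha, ha'⟩ | ⟨i, rfl, hx, hy⟩
      · rcases hkind2 b with ⟨j', hb, hb'⟩ | ⟨i, rfl, hx, hy⟩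
        · rw [ha, ha', hb, hb']
        · rw [ha, ha']
          exact ⟨fun h => absurd h.symm (hx j), fun h => absurd h.symm (hy j)⟩
      · rcases hkind2 b with ⟨j', hb, hb'⟩ | ⟨i', rfl, hx', hy'⟩
        · rw [hb, hb']
          exact ⟨fun h => absurd h (hx j'), fun h => absurd h (hy j')⟩
        · exact h1 i i') (by
      intro l w
      -- the places filled by points
      have h3 : ∀ i : Fin (τ.ar l), ∃ o : Fin q ⊕ {i : I // (∀ j, x i ≠ cst j) ∧
          ∀ j, y i ≠ cst j}, (∀ j, o = Sum.inl j →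
            Sum.elim x cst (w i) = cst j ∧ Sum.elim y cst (w i) = cst j) ∧
          ∀ i', o = Sum.inr i' → w i = Sum.inl i'.1 := by
        intro i
        rcases hkind2 (w i) with ⟨j, ha, ha'⟩ | ⟨i', hi, hx, hy⟩
        · refine ⟨Sum.inl j, fun j' hj => ?_, fun i' hi => absurd hi (by simp)⟩
          rw [← Sum.inl.inj hj]
          exact ⟨ha, ha'⟩
        · refine ⟨Sum.inr ⟨i', hx, hy⟩, fun j hj => absurd hj (by simp), fun i₁ h₁ => ?_⟩
          rw [← Sum.inr.inj h₁]
          exact hi
      choose o ho1 ho2 using h3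
      obtain ⟨f, z, hfz⟩ := exists_fl (fun i => (o i).swap)
      have hX : (fun i => Sum.elim x cst (w i)) =
          fun i => Sum.elim id cst (fl f (fun i => x (z i).1) i) := by
        funext i
        have h4 := congrFun hfz i
        rw [fl_map (fun i' : {i : I // (∀ j, x i ≠ cst j) ∧ ∀ j, y i ≠ cst j} => x i'.1) z]
        beta_reduce
        rw [← h4]
        rcases hoi : o i with j | i'
        · exact (ho1 i j hoi).1
        · rw [ho2 i i' hoi]
          rfl
      have hY : (fun i => Sum.elim y cst (w i)) =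
          fun i => Sum.elim id cst (fl f (fun i => y (z i).1) i) := by
        funext i
        have h4 := congrFun hfz i
        rw [fl_map (fun i' : {i : I // (∀ j, x i ≠ cst j) ∧ ∀ j, y i ≠ cst j} => y i'.1) z]
        beta_reduce
        rw [← h4]
        rcases hoi : o i with j | i'
        · exact (ho1 i j hoi).2
        · rw [ho2 i i' hoi]
          rfl
      rw [hX, hY]
      by_cases hf : ∃ i, f i = none
      · have h5 := h2 (Sum.inl ⟨⟨l, f⟩, hf⟩) (fun i => (z i).1)
        exact ⟨fun h => (h5.1 ⟨fun i => (z i).2.1, h⟩).2,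
          fun h => (h5.2 ⟨fun i => (z i).2.2, h⟩).2⟩
      · have h5 : ∀ z' : {i : Fin (τ.ar l) // f i = none} → B, fl f z' =
            fl f (fun i => x (z i).1) := by
          intro z'
          exact congrArg (fl f) (funext fun i => absurd ⟨i.1, i.2⟩ hf)
        rw [h5 (fun i => y (z i).1)])
  exact ⟨g, hg, fun j => hgx (Sum.inr j), fun i => hgx (Sum.inl i)⟩

/-- Automorphisms which fix the points preserve the new relations. -/
theorem aut_CS {g : B ≃ B} (hg : IsAut 𝔹 g) (hgc : ∀ j, g (cst j) = cst j) :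
    IsAut (CS 𝔹 cst) g := by
  refine aut_strOn.2 ?_
  have h2 : ∀ b j, b ≠ cst j ↔ g b ≠ cst j := by
    intro b j
    rw [not_iff_not, ← g.injective.eq_iff, hgc]
  rintro (p | j) x
  · have h1 : (fun i => Sum.elim id cst (fl p.1.2 (fun i => g (x i)) i)) =
        fun i => g (Sum.elim id cst (fl p.1.2 x i)) := by
      funext i
      rw [fl_map g x]
      beta_reduce
      rcases fl p.1.2 x i with b | j
      · rfl
      · exact (hgc j).symm
    change ((∀ i j, x i ≠ cst j) ∧ 𝔹 p.1.1 (fun i => Sum.elim id cst (fl p.1.2 x i))) ↔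
      ((∀ i j, g (x i) ≠ cst j) ∧
        𝔹 p.1.1 (fun i => Sum.elim id cst (fl p.1.2 (fun i => g (x i)) i)))
    rw [h1]
    exact and_congr (forall_congr' fun i => forall_congr' fun j => h2 _ _) (hg _ _)
  · exact not_iff_not.1 (h2 (x ()) j)

theorem hom_CS (hH : Homogeneous 𝔹) : Homogeneous (CS 𝔹 cst) := by
  intro F f hf
  have hf' : Injective f ∧ ∀ (s : Sy τ q) (x : ArS s → F), RC 𝔹 cst s (fun i => (x i : B)) ↔
      RC 𝔹 cst s (fun i => f (x i)) :=
    (emb_strOn (R := fun (s : Sy τ q) (x : ArS s → F) => RC 𝔹 cst s (fun i => (x i : B)))).1 hf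
  obtain ⟨g, hg, hgc, hgx⟩ := keyC hH (fun i : F => (i : B)) f
    (fun i j => by rw [hf'.1.eq_iff, Subtype.ext_iff]) hf'.2
  exact ⟨g, aut_CS hg hgc, hgx⟩

/-- Automorphisms of the new structure agree on finite tuples with automorphisms of the old one
which fix the points. -/
theorem aut_of_CS (hH : Homogeneous 𝔹) {g' : B ≃ B} (hg' : IsAut (CS 𝔹 cst) g') {I : Type}
    [Finite I] (x : I → B) :
    ∃ g : B ≃ B, IsAut 𝔹 g ∧ (∀ j, g (cst j) = cst j) ∧ ∀ i, g (x i) = g' (x i) :=
  keyC hH x (fun i => g' (x i)) (fun i j => by rw [g'.injective.eq_iff])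
    (fun t z => aut_strOn.1 hg' t (fun i => x (z i)))

end defs

end Pool.Agent.H50.PT
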