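import Pool.Agent.H50.PT.CPA
import Pool.Agent.H44.CM.Asm

/-!
# Structures over finitely many points: completions
-/

set_option autoImplicit false

namespace Pool.Agent.H50.PT

open Pool.Agent.H68.BP Pool.Agent.H58.SF Pool.Agent.H53.GC Pool.Agent.H53.NR
open Pool.Agent.H44.CM (Completable CompB)
open Function

section

variable {τ : Sig} {B : Type} {q : ℕ} {𝔹 : Str τ B} {cst : Fin q → B}

theorem comp_CS {M : ℕ} (hH : Homogeneous 𝔹) (hF : CompB 𝔹 M) (hc : Injective cst)
    (hM : ∀ l, τ.ar l ≤ M) (hM1 : 2 ≤ M) : CompB (CS 𝔹 cst) M := by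
  classical
  intro n 𝕏 G hG h𝕏
  obtain ⟨R, rfl⟩ := exists_strOn 𝕏
  have hX : ∀ (m : ℕ) (s : Fin m → Fin n), m ≤ M → Injective s →
      (∀ i j, i ≠ j → G (s i) (s j)) →
      ∃ g : Fin m → B, Injective g ∧ ∀ (t : Sy τ q) (z : ArS t → Fin m),
        R t (fun i => s (z i)) ↔ RC 𝔹 cst t (fun i => g (z i)) := by
    intro m s hm hs hadj
    obtain ⟨g, hg⟩ := h𝕏 m s hm hs hadj
    exact ⟨g, (emb_strOn
      (R := fun (t : Sy τ q) (z : ArS t → Fin m) => R t (fun i => s (z i)))).1 hg⟩
  -- single elements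
  have h1e : ∀ a : Fin n, ∃ b : B, ∀ t : Sy τ q, R t (fun _ => a) ↔
      RC 𝔹 cst t (fun _ => b) := by
    intro a
    obtain ⟨g, -, hg⟩ := hX 1 (fun _ => a) (by omega) (fun x y _ => Subsingleton.elim x y)
      (fun x y hxy => absurd (Subsingleton.elim x y) hxy)
    exact ⟨g 0, fun t => hg t (fun _ => 0)⟩
  have hun : ∀ a j j', R (Sum.inr j) (fun _ => a) → R (Sum.inr j') (fun _ => a) → j = j' := by
    intro a j j' h1 h2
    obtain ⟨b, hb⟩ := h1e a
    have hk : b = cst j := (hb (Sum.inr j)).1 h1
    have hk' : b = cst j' := (hb (Sum.inr j')).1 h2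
    exact hc (hk.symm.trans hk')
  -- pairs
  have hpr : ∀ a a' j, a ≠ a' → G a a' → R (Sum.inr j) (fun _ => a) →
      R (Sum.inr j) (fun _ => a') → False := by
    intro a a' j hne hadj h1 h2
    obtain ⟨g, hgi, hg⟩ := hX 2 ![a, a'] (by omega) (by
      intro x y hxy
      fin_cases x <;> fin_cases y <;>
        first | rfl | exact absurd hxy hne | exact absurd hxy.symm hne)
      (by
        intro x y hxy
        fin_cases x <;> fin_cases y <;>
          first | exact absurd rfl hxy | exact hadj | exact hG _ _ hadj)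
    have h3 : g 0 = cst j := (hg (Sum.inr j) (fun _ => 0)).1 h1
    have h4 : g 1 = cst j := (hg (Sum.inr j) (fun _ => 1)).1 h2
    exact absurd (hgi (h3.trans h4.symm)) (by decide)
  -- tuples
  have htup : ∀ (p : {p : (Σ l : Fin τ.m, (Fin (τ.ar l) → Option (Fin q))) // ∃ i, p.2 i = none})
      (z : ArS (Sum.inl p : Sy τ q) → Fin n), (∀ i j, z i = z j ∨ G (z i) (z j)) →
      R (Sum.inl p) z → ∀ i j, ¬ R (Sum.inr j) (fun _ => z i) := by
    intro p z hcl hz i j hj
    let T := Set.range z
    let e : T ≃ Fin (Nat.card T) := Finite.equivFin T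
    have hcard : Nat.card T ≤ M := by
      have h1 : Nat.card T ≤ Nat.card (ArS (Sum.inl p : Sy τ q)) := Finite.card_range_le z
      have h2 : Nat.card (ArS (Sum.inl p : Sy τ q)) ≤ Nat.card (Fin (τ.ar p.1.1)) :=
        Finite.card_subtype_le _
      rw [Nat.card_fin] at h2
      exact h1.trans (h2.trans (hM _))
    let z' : ArS (Sum.inl p : Sy τ q) → Fin (Nat.card T) := fun i => e ⟨z i, i, rfl⟩
    have hz' : ∀ i, ((e.symm (z' i) : T) : Fin n) = z i := fun i => by
      simp only [z', Equiv.symm_apply_apply]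
    have hzz : (fun i => ((e.symm (z' i) : T) : Fin n)) = z := funext hz'
    obtain ⟨g, -, hg⟩ := hX (Nat.card T) (fun i => ((e.symm i : T) : Fin n)) hcard
      (fun x y hxy => e.symm.injective (Subtype.ext hxy)) (by
        intro x y hxy
        obtain ⟨i, hi⟩ := (e.symm x).2
        obtain ⟨j, hj⟩ := (e.symm y).2
        have h1 := hcl i j
        rw [hi, hj] at h1
        exact h1.resolve_left fun h => hxy (e.symm.injective (Subtype.ext h)))
    have h1 := (hg (Sum.inl p) z').1 (by rw [hzz]; exact hz)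
    have h2 : g (z' i) = cst j := (hg (Sum.inr j) (fun _ => z' i)).1 (by
      rw [hz' i]
      exact hj)
    exact h1.1 i j h2
  -- the structure with the points
  let U := {a : Fin n // ∀ j, ¬ R (Sum.inr j) (fun _ => a)}
  let 𝕐 : Str τ (U ⊕ Fin q) := fun l w =>
    (∃ (f : Fin (τ.ar l) → Option (Fin q)) (h : ∃ i, f i = none) (z : {i // f i = none} → U),
      w = fl f z ∧ R (Sum.inl ⟨⟨l, f⟩, h⟩) (fun i => (z i : Fin n))) ∨
    ∃ w' : Fin (τ.ar l) → Fin q, w = (fun i => Sum.inr (w' i)) ∧ 𝔹 l (fun i => cst (w' i))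
  let GY : U ⊕ Fin q → U ⊕ Fin q → Prop := fun a b =>
    ∀ u v : U, a = Sum.inl u → b = Sum.inl v → G u v
  have hGl : ∀ u v : U, GY (Sum.inl u) (Sum.inl v) ↔ G u v := fun u v =>
    ⟨fun h => h u v rfl rfl, fun h u' v' hu hv => by
      rw [← Sum.inl.inj hu, ← Sum.inl.inj hv]
      exact h⟩
  have hGr1 : ∀ (j : Fin q) (b : U ⊕ Fin q), GY (Sum.inr j) b := fun j b u v hu =>
    absurd hu (by simp)
  have hGr2 : ∀ (j : Fin q) (b : U ⊕ Fin q), GY b (Sum.inr j) := fun j b u v _ hv =>
    absurd hv (by simp)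
  have hY1 : ∀ (l : Fin τ.m) (f : Fin (τ.ar l) → Option (Fin q)) (h : ∃ i, f i = none)
      (z : {i // f i = none} → U), 𝕐 l (fl f z) ↔
        R (Sum.inl ⟨⟨l, f⟩, h⟩) (fun i => (z i : Fin n)) := by
    intro l f h z
    constructor
    · rintro (⟨f', h', z', e, hR⟩ | ⟨w', e, -⟩)
      · obtain rfl := fl_inj e
        obtain rfl := fl_inj' e
        exact hR
      · obtain ⟨i, hi⟩ := h
        have h2 := fl_none z ⟨i, hi⟩
        have h3 := congrFun e i
        simp only at h2
        rw [h2] at h3
        exact absurd h3 (by simp)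
    · intro hR
      exact Or.inl ⟨f, h, z, rfl, hR⟩
  have hY2 : ∀ (l : Fin τ.m) (w' : Fin (τ.ar l) → Fin q), 𝕐 l (fun i => Sum.inr (w' i)) ↔
      𝔹 l (fun i => cst (w' i)) := by
    intro l w'
    constructor
    · rintro (⟨f, ⟨i, hi⟩, z, e, -⟩ | ⟨w, e, hB⟩)
      · have h2 := fl_none z ⟨i, hi⟩
        have h3 := congrFun e i
        simp only at h2
        rw [h2] at h3
        exact absurd h3 (by simp)
      · have h4 : w' = w := funext fun i => Sum.inr.inj (congrFun e i)
        rw [h4]
        exact hB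
    · intro hB
      exact Or.inr ⟨w', rfl, hB⟩
  have hpart : ∀ (m : ℕ) (t : Fin m → U ⊕ Fin q), m ≤ M → Injective t →
      (∀ i j, i ≠ j → GY (t i) (t j)) → Embeds (pull 𝕐 t) 𝔹 := by
    intro m t hm ht hadj
    let T := {a : Fin m // ∃ u, t a = Sum.inl u}
    choose uu huu using fun a : T => a.2
    let e0 : T ≃ Fin (Nat.card T) := Finite.equivFin T
    have hcard : Nat.card T ≤ M := by
      have h1 : Nat.card T ≤ Nat.card (Fin m) := Finite.card_subtype_le _
      rw [Nat.card_fin] at h1
      exact h1.trans hm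
    have huui : ∀ a b, uu a = uu b → a = b := by
      intro a b hab
      apply Subtype.ext
      apply ht
      rw [huu a, huu b, hab]
    -- tuples of the structure with the points
    have hz1 : ∀ (l : Fin τ.m) (z : Fin (τ.ar l) → Fin m) (f : Fin (τ.ar l) → Option (Fin q))
        (z0 : {i // f i = none} → U), (fun i => t (z i)) = fl f z0 →
        ∃ z1 : {i // f i = none} → Fin (Nat.card T), (∀ i, (uu (e0.symm (z1 i)) : U) = z0 i) ∧
          ∀ i, ((e0.symm (z1 i) : T) : Fin m) = z i := by
      intro l z f z0 e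
      have h1 : ∀ i : {i // f i = none}, t (z i) = Sum.inl (z0 i) := fun i => by
        have h2 := congrFun e i
        rw [fl_none] at h2
        exact h2
      refine ⟨fun i => e0 ⟨z i, z0 i, h1 i⟩, fun i => ?_, fun i => ?_⟩
      · rw [Equiv.symm_apply_apply]
        have h3 := huu ⟨z i, z0 i, h1 i⟩
        simp only [h1] at h3
        exact (Sum.inl.inj h3).symm
      · rw [Equiv.symm_apply_apply]
    obtain ⟨g0, hg0i, hg0⟩ := hX (Nat.card T) (fun i => ((uu (e0.symm i) : U) : Fin n)) hcard
      (fun x y hxy => e0.symm.injective (huui _ _ (Subtype.ext hxy))) (by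
        intro x y hxy
        have hne : ((e0.symm x : T) : Fin m) ≠ (e0.symm y : T) := fun h =>
          hxy (e0.symm.injective (Subtype.ext h))
        have h1 := hadj _ _ hne
        rw [huu, huu] at h1
        exact (hGl _ _).1 h1)
    have hD : ∀ x j, g0 x ≠ cst j := by
      intro x j hx
      exact (uu (e0.symm x)).2 j ((hg0 (Sum.inr j) (fun _ => x)).2 hx)
    have hGe : ∀ a, ∃ b : B, (∀ h : (∃ u, t a = Sum.inl u), b = g0 (e0 ⟨a, h⟩)) ∧
        ∀ j, t a = Sum.inr j → b = cst j := by
      intro a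
      by_cases ha : ∃ u, t a = Sum.inl u
      · obtain ⟨u, hu⟩ := id ha
        exact ⟨g0 (e0 ⟨a, ha⟩), fun _ => rfl, fun j hj => by
          rw [hu] at hj
          exact absurd hj (by simp)⟩
      · obtain ⟨j, hj⟩ : ∃ j, t a = Sum.inr j := by
          rcases h : t a with u | j
          · exact absurd ⟨u, h⟩ ha
          · exact ⟨j, rfl⟩
        exact ⟨cst j, fun h => absurd h ha, fun j' hj' => by
          rw [Sum.inr.inj (hj.symm.trans hj')]⟩
    choose Gm hG1 hG2 using hGe
    refine ⟨Gm, ?_, ?_⟩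
    · intro a b hab
      rcases ha : t a with u | j
      · rcases hb : t b with u' | j'
        · rw [hG1 a ⟨u, ha⟩, hG1 b ⟨u', hb⟩] at hab
          exact Subtype.ext_iff.1 (e0.injective (hg0i hab))
        · rw [hG1 a ⟨u, ha⟩, hG2 b j' hb] at hab
          exact absurd hab (hD _ j')
      · rcases hb : t b with u' | j'
        · rw [hG2 a j ha, hG1 b ⟨u', hb⟩] at hab
          exact absurd hab.symm (hD _ j)
        · rw [hG2 a j ha, hG2 b j' hb] at hab
          apply ht
          rw [ha, hb, hc hab]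
    · intro l z
      change 𝕐 l (fun i => t (z i)) ↔ 𝔹 l (fun i => Gm (z i))
      obtain ⟨f, z0, e⟩ := exists_fl (fun i => t (z i))
      by_cases hf : ∃ i, f i = none
      · obtain ⟨z1, h1, h2⟩ := hz1 l z f z0 e
        rw [e, hY1 l f hf z0]
        have h4 : (fun i => ((uu (e0.symm (z1 i)) : U) : Fin n)) =
            fun i => (z0 i : Fin n) := funext fun i => congrArg Subtype.val (h1 i)
        have h5 := hg0 (Sum.inl ⟨⟨l, f⟩, hf⟩) z1
        refine (iff_of_eq (congrArg (R (Sum.inl ⟨⟨l, f⟩, hf⟩)) h4)).symm.trans (h5.trans ?_)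
        have h6 : (fun i => Sum.elim id cst (fl f (fun i => g0 (z1 i)) i)) =
            fun i => Gm (z i) := by
          funext i
          have h7 := congrFun e i
          rcases hfi : f i with _ | j
          · have h8 := fl_none (fun i => g0 (z1 i)) ⟨i, hfi⟩
            have h9 := fl_none z0 ⟨i, hfi⟩
            simp only at h8 h9
            rw [h8]
            rw [h9] at h7
            rw [hG1 (z i) ⟨_, h7⟩]
            simp only [Sum.elim_inl, id_eq]
            have h10 : z1 ⟨i, hfi⟩ = e0 ⟨z i, _, h7⟩ := by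
              apply e0.symm.injective
              apply Subtype.ext
              rw [h2 ⟨i, hfi⟩, Equiv.symm_apply_apply]
            rw [h10]
          · rw [fl_some _ hfi] at h7 ⊢
            rw [hG2 (z i) j h7]
            rfl
        constructor
        · intro h7
          have h8 := h7.2
          change 𝔹 l (fun i => Sum.elim id cst (fl f (fun i => g0 (z1 i)) i)) at h8
          rw [h6] at h8
          exact h8
        · intro h7
          refine ⟨fun i j => hD _ j, ?_⟩
          change 𝔹 l (fun i => Sum.elim id cst (fl f (fun i => g0 (z1 i)) i))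
          rw [h6]
          exact h7
      · obtain ⟨w', hw'⟩ := fl_all hf z0
        have e' : (fun i => t (z i)) = fun i => Sum.inr (w' i) := by
          rw [e]
          exact funext hw'
        rw [e', hY2]
        have h6 : (fun i => Gm (z i)) = fun i => cst (w' i) :=
          funext fun i => hG2 (z i) (w' i) (congrFun e' i)
        rw [h6]
  obtain ⟨e, he1, he2⟩ : ∃ e : U ⊕ Fin q → B, (∀ a b, a ≠ b → GY a b → e a ≠ e b) ∧
      ∀ (l : Fin τ.m) (w : Fin (τ.ar l) → U ⊕ Fin q), (∀ i j, w i = w j ∨ GY (w i) (w j)) →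
        (𝔹 l (fun i => e (w i)) ↔ 𝕐 l w) := by
    let eq := Finite.equivFin (U ⊕ Fin q)
    obtain ⟨g, hg1, hg2⟩ := hF (Nat.card (U ⊕ Fin q)) (pull 𝕐 eq.symm)
      (fun a b => GY (eq.symm a) (eq.symm b)) (fun a b h u v hu hv => hG _ _ (h v u hv hu)) (by
      intro m s hm hs hadj
      exact hpart m (fun i => eq.symm (s i)) hm (eq.symm.injective.comp hs) hadj)
    refine ⟨fun a => g (eq a), fun a b hab hadj => ?_, fun l w hw => ?_⟩
    · refine hg1 _ _ (fun h => hab (eq.injective h)) ?_
      rw [Equiv.symm_apply_apply, Equiv.symm_apply_apply]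
      exact hadj
    · have h1 := hg2 l (fun i => eq (w i)) (by
        intro i j
        rw [Equiv.symm_apply_apply, Equiv.symm_apply_apply, eq.injective.eq_iff]
        exact hw i j)
      rw [h1]
      unfold pull
      simp only [Equiv.symm_apply_apply]
  obtain ⟨g, hg, hgc⟩ := exists_aut hH (fun j => e (Sum.inr j)) cst
    (fun i j => by
      rw [hc.eq_iff]
      refine ⟨fun h => ?_, fun h => by rw [h]⟩
      by_contra hij
      exact he1 (Sum.inr i) (Sum.inr j) (fun h' => hij (Sum.inr.inj h')) (hGr1 _ _) h)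
    (fun l w => by
      rw [← hY2, he2 l (fun i => Sum.inr (w i)) (fun i j => Or.inr (hGr1 _ _))])
  have hFex : ∀ a : Fin n, ∃ b : B, (∀ h : (∀ j, ¬ R (Sum.inr j) (fun _ => a)),
      b = g (e (Sum.inl ⟨a, h⟩))) ∧ ∀ j, R (Sum.inr j) (fun _ => a) → b = cst j := by
    intro a
    by_cases h : ∀ j, ¬ R (Sum.inr j) (fun _ => a)
    · exact ⟨g (e (Sum.inl ⟨a, h⟩)), fun _ => rfl, fun j hj => absurd hj (h j)⟩
    · push Not at h
      obtain ⟨j, hj⟩ := h
      exact ⟨cst j, fun h => absurd hj (h j), fun j' hj' => by rw [hun a j j' hj hj']⟩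
  choose F hF1 hF2 using hFex
  have hFU : ∀ (u : U) j, F u ≠ cst j := by
    intro u j hj
    have h1 := hF1 u u.2
    rw [h1, ← hgc j] at hj
    exact he1 (Sum.inl u) (Sum.inr j) (by simp) (hGr2 _ _) (g.injective hj)
  refine ⟨F, ?_, ?_⟩
  · intro a b hab hadj h
    by_cases ha : ∀ j, ¬ R (Sum.inr j) (fun _ => a)
    · by_cases hb : ∀ j, ¬ R (Sum.inr j) (fun _ => b)
      · rw [hF1 a ha, hF1 b hb] at h
        exact he1 (Sum.inl ⟨a, ha⟩) (Sum.inl ⟨b, hb⟩)
          (fun h' => hab (congrArg Subtype.val (Sum.inl.inj h'))) ((hGl _ _).2 hadj)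
          (g.injective h)
      · push Not at hb
        obtain ⟨j, hj⟩ := hb
        rw [hF2 b j hj] at h
        exact hFU ⟨a, ha⟩ j h
    · push Not at ha
      obtain ⟨j, hj⟩ := ha
      by_cases hb : ∀ j, ¬ R (Sum.inr j) (fun _ => b)
      · rw [hF2 a j hj] at h
        exact hFU ⟨b, hb⟩ j h.symm
      · push Not at hb
        obtain ⟨j', hj'⟩ := hb
        rw [hF2 a j hj, hF2 b j' hj'] at h
        obtain rfl := hc h
        exact hpr a b j hab hadj hj hj'
  · have hrel : ∀ (t : Sy τ q) (z : ArS t → Fin n), (∀ i j, z i = z j ∨ G (z i) (z j)) →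
        (RC 𝔹 cst t (fun i => F (z i)) ↔ R t z) := by
      rintro (p | j) z hz
      · have key' : ∀ z0 : ArS (Sum.inl p : Sy τ q) → U,
            (∀ i j, z0 i = z0 j ∨ G (z0 i) (z0 j)) →
            (RC 𝔹 cst (Sum.inl p) (fun i => F (z0 i)) ↔
              R (Sum.inl p) (fun i => (z0 i : Fin n))) := by
          intro z0 hz0
          have h1 := hY1 p.1.1 p.1.2 p.2 z0
          have h2 : (fun i => Sum.elim id cst (fl p.1.2 (fun i => F (z0 i)) i)) =
              fun i => g (e (fl p.1.2 z0 i)) := by
            funext i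
            rw [fl_map (fun u : U => F u) z0]
            beta_reduce
            rcases fl p.1.2 z0 i with u | j
            · exact hF1 u u.2
            · exact (hgc j).symm
          have h3 := he2 p.1.1 (fl p.1.2 z0) (by
            intro i j
            rcases hi : p.1.2 i with _ | a
            · rcases hj : p.1.2 j with _ | b
              · have h4 := fl_none z0 ⟨i, hi⟩
                have h5 := fl_none z0 ⟨j, hj⟩
                simp only at h4 h5
                rw [h4, h5, hGl]
                exact (hz0 _ _).imp (fun h => congrArg Sum.inl h) id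
              · rw [fl_some z0 hj]
                exact Or.inr (hGr2 _ _)
            · rw [fl_some z0 hi]
              exact Or.inr (hGr1 _ _))
          rw [← h1, ← h3, hg, ← h2]
          exact ⟨fun h3 => h3.2, fun h3 => ⟨fun i j => hFU (z0 i) j, h3⟩⟩
        constructor
        · intro h
          have h1 : ∀ i j, ¬ R (Sum.inr j) (fun _ => z i) := by
            intro i j hj
            exact h.1 i j (hF2 (z i) j hj)
          exact (key' (fun i => ⟨z i, h1 i⟩) (fun i j => (hz i j).imp (fun h => Subtype.ext h)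
            id)).1 h
        · intro h
          exact (key' (fun i => ⟨z i, htup p z hz h i⟩) (fun i j => (hz i j).imp
            (fun h => Subtype.ext h) id)).2 h
      · change F (z ()) = cst j ↔ R (Sum.inr j) z
        have hz : z = fun _ => z () := rfl
        constructor
        · intro h
          by_cases ha : ∀ j, ¬ R (Sum.inr j) (fun _ => z ())
          · exact absurd h (hFU ⟨z (), ha⟩ j)
          · push Not at ha
            obtain ⟨j', hj'⟩ := ha
            rw [hF2 (z ()) j' hj'] at h
            rw [← hc h]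
            exact hj'
        · intro h
          exact hF2 (z ()) j h
    intro l z hz
    exact hrel _ _ (fun i j => hz _ _)

theorem completable_CS (hH : Homogeneous 𝔹) (hF : Completable 𝔹) (hc : Injective cst) :
    Completable (CS 𝔹 cst) := by
  obtain ⟨M, hM⟩ := hF
  refine ⟨max (max M 2) τ.width, comp_CS hH
    (CompB.mono hM ((le_max_left M 2).trans (le_max_left _ _))) hc
    (fun l => (Finset.le_sup (f := τ.ar) (Finset.mem_univ l)).trans (le_max_right _ _))
    ((le_max_right M 2).trans (le_max_left _ _))⟩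

end

end Pool.Agent.H50.PT
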