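import Pool.Agent.H50.PT.SG

/-!
# Structures over finitely many points

`cst` is a finite tuple of different elements of the structure `𝔹`. The new structure has the
elements of `𝔹` which are not in the tuple, and infinitely many copies of each element of the tuple.
Its relations are the relations of `𝔹` where some of the places are filled by elements of the tuple,
and the sets of the copies of the elements of the tuple.
-/

set_option autoImplicit false

namespace Pool.Agent.H50.PT

open Pool.Agent.H68.BP Pool.Agent.H58.SF Pool.Agent.H53.GC Pool.Agent.H53.NR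
open Function

section fill

variable {r q : ℕ} {Z Z' : Type}

/-- The places `i` with `f i = none` are filled by `z`, the other ones by `f`. -/
def fl (f : Fin r → Option (Fin q)) (z : {i : Fin r // f i = none} → Z) : Fin r → Z ⊕ Fin q :=
  fun i => if h : f i = none then Sum.inl (z ⟨i, h⟩) else
    Sum.inr ((f i).get (Option.isSome_iff_ne_none.2 h))

theorem fl_none {f : Fin r → Option (Fin q)} (z : {i : Fin r // f i = none} → Z)
    (i : {i : Fin r // f i = none}) : fl f z i = Sum.inl (z i) := by
  unfold fl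
  rw [dif_pos i.2]

theorem fl_some {f : Fin r → Option (Fin q)} (z : {i : Fin r // f i = none} → Z) {i : Fin r}
    {j : Fin q} (h : f i = some j) : fl f z i = Sum.inr j := by
  unfold fl
  rw [dif_neg (by rw [h]; simp)]
  simp [h]

theorem exists_fl (w : Fin r → Z ⊕ Fin q) :
    ∃ (f : Fin r → Option (Fin q)) (z : {i : Fin r // f i = none} → Z), w = fl f z := by
  have h1 : ∀ i : {i : Fin r // Sum.elim (fun _ => none) some (w i) = (none : Option (Fin q))},
      ∃ a, w i = Sum.inl a := by
    rintro ⟨i, hi⟩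
    rcases h : w i with a | j
    · exact ⟨a, rfl⟩
    · rw [h] at hi
      simp at hi
  choose z hz using h1
  refine ⟨fun i => Sum.elim (fun _ => none) some (w i), z, ?_⟩
  funext i
  by_cases h : Sum.elim (fun _ => none) some (w i) = (none : Option (Fin q))
  · rw [hz ⟨i, h⟩]
    exact (fl_none z ⟨i, h⟩).symm
  · rcases hw : w i with a | j
    · rw [hw] at h
      simp at h
    · refine (fl_some z ?_).symm
      simp [hw]

theorem fl_inj {f f' : Fin r → Option (Fin q)} {z : {i : Fin r // f i = none} → Z}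
    {z' : {i : Fin r // f' i = none} → Z} (h : fl f z = fl f' z') : f = f' := by
  funext i
  have h1 := congrFun h i
  rcases hf : f i with _ | j
  · rcases hf' : f' i with _ | j'
    · rfl
    · rw [fl_some z' hf'] at h1
      have h2 := fl_none z ⟨i, hf⟩
      simp only at h2
      rw [h2] at h1
      exact absurd h1 (by simp)
  · rcases hf' : f' i with _ | j'
    · rw [fl_some z hf] at h1
      have h2 := fl_none z' ⟨i, hf'⟩
      simp only at h2
      rw [h2] at h1
      exact absurd h1 (by simp)
    · rw [fl_some z hf, fl_some z' hf'] at h1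
      rw [Sum.inr.inj h1]

theorem fl_inj' {f : Fin r → Option (Fin q)} {z z' : {i : Fin r // f i = none} → Z}
    (h : fl f z = fl f z') : z = z' := by
  funext i
  have h1 := congrFun h i
  rw [fl_none, fl_none] at h1
  exact Sum.inl.inj h1

theorem fl_map {f : Fin r → Option (Fin q)} (φ : Z → Z') (z : {i : Fin r // f i = none} → Z) :
    fl f (fun i => φ (z i)) = fun i => Sum.map φ id (fl f z i) := by
  funext i
  rcases hf : f i with _ | j
  · have h1 := fl_none z ⟨i, hf⟩
    have h2 := fl_none (fun i => φ (z i)) ⟨i, hf⟩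
    simp only at h1 h2
    rw [h1, h2]
    rfl
  · rw [fl_some z hf, fl_some _ hf]
    rfl

theorem fl_all {f : Fin r → Option (Fin q)} (hf : ¬ ∃ i, f i = none)
    (z : {i : Fin r // f i = none} → Z) : ∃ w : Fin r → Fin q, ∀ i, fl f z i = Sum.inr (w i) := by
  push Not at hf
  have h1 : ∀ i, ∃ j, f i = some j := fun i => Option.ne_none_iff_exists'.1 (hf i)
  choose w hw using h1
  exact ⟨w, fun i => fl_some z (hw i)⟩

end fill

section defs

variable {τ : Sig} {B : Type} {q : ℕ}

/-- the elements which are not in the tuple -/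
abbrev Dd (cst : Fin q → B) : Type := {b : B // ∀ j, b ≠ cst j}

/-- the new domain -/
abbrev BP (cst : Fin q → B) : Type := Dd cst ⊕ (Fin q × ℕ)

/-- the map to the old domain -/
def cl (cst : Fin q → B) : BP cst → B := Sum.elim (fun d => (d : B)) (fun p => cst p.1)

/-- the new symbols -/
abbrev Sy (τ : Sig) (q : ℕ) : Type :=
  {p : (Σ l : Fin τ.m, (Fin (τ.ar l) → Option (Fin q))) // ∃ i, p.2 i = none} ⊕ Fin q

/-- the places of the new symbols -/
def ArS : Sy τ q → Type
  | Sum.inl p => {i : Fin (τ.ar p.1.1) // p.1.2 i = none}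
  | Sum.inr _ => Unit

instance (s : Sy τ q) : Finite (ArS s) := by
  rcases s with p | j
  · exact inferInstanceAs (Finite {i : Fin (τ.ar p.1.1) // p.1.2 i = none})
  · exact inferInstanceAs (Finite Unit)

/-- the new relations -/
def RP (𝔹 : Str τ B) (cst : Fin q → B) : (s : Sy τ q) → (ArS s → BP cst) → Prop
  | Sum.inl p, x => (∀ i, ∃ d, x i = Sum.inl d) ∧
      𝔹 p.1.1 (fun i => Sum.elim (cl cst) cst (fl p.1.2 x i))
  | Sum.inr j, x => ∃ k, x () = Sum.inr (j, k)

/-- the new structure -/
noncomputable def BS (𝔹 : Str τ B) (cst : Fin q → B) : Str (sigOf (Sy τ q) ArS) (BP cst) :=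
  strOn (RP 𝔹 cst)

variable {𝔹 : Str τ B} {cst : Fin q → B}

/-- Tuples of the same type have images of the same type over the points. -/
theorem key (hH : Homogeneous 𝔹) {I : Type} [Finite I] (x y : I → BP cst)
    (h1 : ∀ i j, x i = x j ↔ y i = y j)
    (h2 : ∀ (s : Sy τ q) (z : ArS s → I), RP 𝔹 cst s (fun i => x (z i)) ↔
      RP 𝔹 cst s (fun i => y (z i))) :
    ∃ g : B ≃ B, IsAut 𝔹 g ∧ (∀ j, g (cst j) = cst j) ∧ ∀ i, g (cl cst (x i)) = cl cst (y i) := by
  -- the kinds
  have hk : ∀ i j, (∃ k, x i = Sum.inr (j, k)) ↔ ∃ k, y i = Sum.inr (j, k) := fun i j =>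
    h2 (Sum.inr j) (fun _ => i)
  have hkind : ∀ i, (∃ j, (∃ k, x i = Sum.inr (j, k)) ∧ ∃ k, y i = Sum.inr (j, k)) ∨
      ∃ d d', x i = Sum.inl d ∧ y i = Sum.inl d' := by
    intro i
    rcases hx : x i with d | ⟨j, k⟩
    · rcases hy : y i with d' | ⟨j, k⟩
      · exact Or.inr ⟨d, d', rfl, rfl⟩
      · obtain ⟨k', hk'⟩ := (hk i j).2 ⟨k, hy⟩
        rw [hx] at hk'
        exact absurd hk' (by simp)
    · exact Or.inl ⟨j, ⟨k, rfl⟩, by
        obtain ⟨k', hk'⟩ := (hk i j).1 ⟨k, hx⟩
        exact ⟨k', hk'⟩⟩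
  -- the kinds with the points
  have hkind2 : ∀ a : I ⊕ Fin q, (∃ j, Sum.elim (fun i => cl cst (x i)) cst a = cst j ∧
      Sum.elim (fun i => cl cst (y i)) cst a = cst j) ∨
      ∃ i d d', a = Sum.inl i ∧ x i = Sum.inl d ∧ y i = Sum.inl d' := by
    rintro (i | j)
    · rcases hkind i with ⟨j, ⟨k, hx⟩, k', hy⟩ | ⟨d, d', hx, hy⟩
      · left
        refine ⟨j, ?_, ?_⟩
        · simp [hx, cl]
        · simp [hy, cl]
      · exact Or.inr ⟨i, d, d', rfl, hx, hy⟩
    · exact Or.inl ⟨j, rfl, rfl⟩
  obtain ⟨g, hg, hgx⟩ := exists_aut hH (Sum.elim (fun i => cl cst (x i)) cst)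
    (Sum.elim (fun i => cl cst (y i)) cst) (by
      intro a b
      rcases hkind2 a with ⟨j, ha, ha'⟩ | ⟨i, d, d', rfl, hx, hy⟩
      · rcases hkind2 b with ⟨j', hb, hb'⟩ | ⟨i, d, d', rfl, hx, hy⟩
        · rw [ha, ha', hb, hb']
        · rw [ha, ha']
          simp only [Sum.elim_inl, hx, hy, cl]
          exact ⟨fun h => absurd h.symm (d.2 j), fun h => absurd h.symm (d'.2 j)⟩
      · rcases hkind2 b with ⟨j', hb, hb'⟩ | ⟨i', e, e', rfl, hx', hy'⟩
        · rw [hb, hb']
          simp only [Sum.elim_inl, hx, hy, cl]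
          exact ⟨fun h => absurd h (d.2 j'), fun h => absurd h (d'.2 j')⟩
        · simp only [Sum.elim_inl, hx, hy, hx', hy', cl]
          have h3 := h1 i i'
          rw [hx, hx', hy, hy', Sum.inl.injEq, Sum.inl.injEq, Subtype.ext_iff,
            Subtype.ext_iff] at h3
          exact h3) (by
      intro l w
      -- the places filled by points
      have h3 : ∀ i : Fin (τ.ar l), ∃ o : Fin q ⊕ {i : I // ∃ d d', x i = Sum.inl d ∧
          y i = Sum.inl d'}, (∀ j, o = Sum.inl j →
            Sum.elim (fun i => cl cst (x i)) cst (w i) = cst j ∧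
            Sum.elim (fun i => cl cst (y i)) cst (w i) = cst j) ∧
          ∀ i', o = Sum.inr i' → w i = Sum.inl i'.1 := by
        intro i
        rcases hkind2 (w i) with ⟨j, ha, ha'⟩ | ⟨i', d, d', hi, hx, hy⟩
        · refine ⟨Sum.inl j, fun j' hj => ?_, fun i' hi => absurd hi (by simp)⟩
          rw [← Sum.inl.inj hj]
          exact ⟨ha, ha'⟩
        · refine ⟨Sum.inr ⟨i', d, d', hx, hy⟩, fun j hj => absurd hj (by simp), fun i₁ h₁ => ?_⟩
          rw [← Sum.inr.inj h₁]
          exact hi
      choose o ho1 ho2 using h3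
      obtain ⟨f, z, hfz⟩ := exists_fl (fun i => (o i).swap)
      have hX : (fun i => Sum.elim (fun i => cl cst (x i)) cst (w i)) =
          fun i => Sum.elim (cl cst) cst (fl f (fun i => x (z i).1) i) := by
        funext i
        have h4 := congrFun hfz i
        rw [fl_map (fun i' : {i : I // ∃ d d', x i = Sum.inl d ∧ y i = Sum.inl d'} => x i'.1) z]
        beta_reduce
        rw [← h4]
        rcases hoi : o i with j | i'
        · exact (ho1 i j hoi).1
        · rw [ho2 i i' hoi]
          rfl
      have hY : (fun i => Sum.elim (fun i => cl cst (y i)) cst (w i)) =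
          fun i => Sum.elim (cl cst) cst (fl f (fun i => y (z i).1) i) := by
        funext i
        have h4 := congrFun hfz i
        rw [fl_map (fun i' : {i : I // ∃ d d', x i = Sum.inl d ∧ y i = Sum.inl d'} => y i'.1) z]
        beta_reduce
        rw [← h4]
        rcases hoi : o i with j | i'
        · exact (ho1 i j hoi).2
        · rw [ho2 i i' hoi]
          rfl
      rw [hX, hY]
      by_cases hf : ∃ i, f i = none
      · have h5 := h2 (Sum.inl ⟨⟨l, f⟩, hf⟩) (fun i => (z i).1)
        have h6 : ∀ i, ∃ d, x (z i).1 = Sum.inl d := fun i => by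
          obtain ⟨d, d', hx, -⟩ := (z i).2
          exact ⟨d, hx⟩
        have h7 : ∀ i, ∃ d, y (z i).1 = Sum.inl d := fun i => by
          obtain ⟨d, d', -, hy⟩ := (z i).2
          exact ⟨d', hy⟩
        exact ⟨fun h => (h5.1 ⟨h6, h⟩).2, fun h => (h5.2 ⟨h7, h⟩).2⟩
      · have h5 : ∀ z' : {i : Fin (τ.ar l) // f i = none} → BP cst, fl f z' =
            fl f (fun i => x (z i).1) := by
          intro z'
          exact congrArg (fl f) (funext fun i => absurd ⟨i.1, i.2⟩ hf)
        rw [h5 (fun i => y (z i).1)])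
  refine ⟨g, hg, fun j => hgx (Sum.inr j), fun i => hgx (Sum.inl i)⟩

end defs

end Pool.Agent.H50.PT
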