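import Pool.Agent.H50.PT.HOM

/-!
# Structures over finitely many points: free boundedness
-/

set_option autoImplicit false

namespace Pool.Agent.H50.PT

open Pool.Agent.H68.BP Pool.Agent.H58.SF Pool.Agent.H53.GC Pool.Agent.H53.NR
open Function

section

variable {τ : Sig} {B : Type} {q : ℕ} {𝔹 : Str τ B} {cst : Fin q → B}

theorem fb_BS {M : ℕ} (hH : Homogeneous 𝔹) (hF : FreelyBounded 𝔹 M) (hc : Injective cst)
    (hM : ∀ l, 1 ≤ τ.ar l ∧ τ.ar l ≤ M) (hM1 : 1 ≤ M) : FreelyBounded (BS 𝔹 cst) M := by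
  classical
  intro n 𝕏 h𝕏
  obtain ⟨R, rfl⟩ := exists_strOn 𝕏
  have hX : ∀ (m : ℕ) (s : Fin m → Fin n), m ≤ M → Injective s →
      (∀ x y : Fin m, x ≠ y → ∃ (t : Sy τ q) (z : ArS t → Fin m), R t (fun i => s (z i)) ∧
        (∃ i, z i = x) ∧ ∃ i, z i = y) →
      ∃ g : Fin m → BP cst, Injective g ∧ ∀ (t : Sy τ q) (z : ArS t → Fin m),
        R t (fun i => s (z i)) ↔ RP 𝔹 cst t (fun i => g (z i)) := by
    intro m s hm hs hirr
    obtain ⟨g, hg⟩ := h𝕏 m s hm hs
      ((irr_strOn (R := fun (t : Sy τ q) (z : ArS t → Fin m) => R t (fun i => s (z i)))).2 hirr)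
    exact ⟨g, (emb_strOn
      (R := fun (t : Sy τ q) (z : ArS t → Fin m) => R t (fun i => s (z i)))).1 hg⟩
  -- single elements
  have h1e : ∀ a : Fin n, ∃ b : BP cst, ∀ t : Sy τ q, R t (fun _ => a) ↔
      RP 𝔹 cst t (fun _ => b) := by
    intro a
    obtain ⟨g, -, hg⟩ := hX 1 (fun _ => a) hM1 (fun x y _ => Subsingleton.elim x y)
      (fun x y hxy => absurd (Subsingleton.elim x y) hxy)
    exact ⟨g 0, fun t => hg t (fun _ => 0)⟩
  have hun : ∀ a j j', R (Sum.inr j) (fun _ => a) → R (Sum.inr j') (fun _ => a) → j = j' := by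
    intro a j j' h1 h2
    obtain ⟨b, hb⟩ := h1e a
    obtain ⟨k, hk⟩ := (hb (Sum.inr j)).1 h1
    obtain ⟨k', hk'⟩ := (hb (Sum.inr j')).1 h2
    have h3 := hk.symm.trans hk'
    simp only [Sum.inr.injEq, Prod.mk.injEq] at h3
    exact h3.1
  -- tuples
  have htup : ∀ (p : {p : (Σ l : Fin τ.m, (Fin (τ.ar l) → Option (Fin q))) // ∃ i, p.2 i = none})
      (z : ArS (Sum.inl p : Sy τ q) → Fin n), R (Sum.inl p) z →
      ∀ i j, ¬ R (Sum.inr j) (fun _ => z i) := by
    intro p z hz i j hj
    let T := Set.range z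
    let e : T ≃ Fin (Nat.card T) := Finite.equivFin T
    have hcard : Nat.card T ≤ M := by
      have h1 : Nat.card T ≤ Nat.card (ArS (Sum.inl p : Sy τ q)) := Finite.card_range_le z
      have h2 : Nat.card (ArS (Sum.inl p : Sy τ q)) ≤ Nat.card (Fin (τ.ar p.1.1)) :=
        Finite.card_subtype_le _
      rw [Nat.card_fin] at h2
      exact h1.trans (h2.trans (hM _).2)
    let z' : ArS (Sum.inl p : Sy τ q) → Fin (Nat.card T) := fun i => e ⟨z i, i, rfl⟩
    have hz' : ∀ i, ((e.symm (z' i) : T) : Fin n) = z i := fun i => by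
      simp only [z', Equiv.symm_apply_apply]
    have hzz : (fun i => ((e.symm (z' i) : T) : Fin n)) = z := funext hz'
    obtain ⟨g, -, hg⟩ := hX (Nat.card T) (fun i => ((e.symm i : T) : Fin n)) hcard
      (fun x y hxy => e.symm.injective (Subtype.ext hxy)) (by
        have hs : ∀ x, ∃ i, z' i = x := by
          intro x
          obtain ⟨i, hi⟩ := (e.symm x).2
          refine ⟨i, ?_⟩
          apply e.symm.injective
          apply Subtype.ext
          rw [hz', hi]
        intro x y _
        exact ⟨Sum.inl p, z', by rw [hzz]; exact hz, hs x, hs y⟩)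
    have h1 := (hg (Sum.inl p) z').1 (by rw [hzz]; exact hz)
    obtain ⟨d, hd⟩ := h1.1 i
    obtain ⟨k, hk⟩ := (hg (Sum.inr j) (fun _ => z' i)).1 (by
      beta_reduce
      rw [hz' i]
      exact hj)
    rw [hd] at hk
    exact absurd hk (by simp)
  -- the structure with the points
  let U := {a : Fin n // ∀ j, ¬ R (Sum.inr j) (fun _ => a)}
  let 𝕐 : Str τ (U ⊕ Fin q) := fun l w =>
    (∃ (f : Fin (τ.ar l) → Option (Fin q)) (h : ∃ i, f i = none) (z : {i // f i = none} → U),
      w = fl f z ∧ R (Sum.inl ⟨⟨l, f⟩, h⟩) (fun i => (z i : Fin n))) ∨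
    ∃ w' : Fin (τ.ar l) → Fin q, w = (fun i => Sum.inr (w' i)) ∧ 𝔹 l (fun i => cst (w' i))
  have hY1 : ∀ (l : Fin τ.m) (f : Fin (τ.ar l) → Option (Fin q)) (h : ∃ i, f i = none)
      (z : {i // f i = none} → U), 𝕐 l (fl f z) ↔
        R (Sum.inl ⟨⟨l, f⟩, h⟩) (fun i => (z i : Fin n)) := by
    intro l f h z
    constructor
    · rintro (⟨f', h', z', e, hR⟩ | ⟨w', e, -⟩)
      · obtain rfl := fl_inj e
        obtain rfl := fl_inj' e
        exact hR
      · obtain ⟨i, hi⟩ := h
        have h2 := fl_none z ⟨i, hi⟩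
        have h3 := congrFun e i
        simp only at h2
        rw [h2] at h3
        exact absurd h3 (by simp)
    · intro hR
      exact Or.inl ⟨f, h, z, rfl, hR⟩
  have hY2 : ∀ (l : Fin τ.m) (w' : Fin (τ.ar l) → Fin q), 𝕐 l (fun i => Sum.inr (w' i)) ↔
      𝔹 l (fun i => cst (w' i)) := by
    intro l w'
    constructor
    · rintro (⟨f, ⟨i, hi⟩, z, e, -⟩ | ⟨w, e, hB⟩)
      · have h2 := fl_none z ⟨i, hi⟩
        have h3 := congrFun e i
        simp only at h2
        rw [h2] at h3
        exact absurd h3 (by simp)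
      · have h4 : w' = w := funext fun i => Sum.inr.inj (congrFun e i)
        rw [h4]
        exact hB
    · intro hB
      exact Or.inr ⟨w', rfl, hB⟩
  have hpart : ∀ (m : ℕ) (t : Fin m → U ⊕ Fin q), m ≤ M → Injective t →
      Irreducible (pull 𝕐 t) → Embeds (pull 𝕐 t) 𝔹 := by
    intro m t hm ht hirr
    let T := {a : Fin m // ∃ u, t a = Sum.inl u}
    choose uu huu using fun a : T => a.2
    let e0 : T ≃ Fin (Nat.card T) := Finite.equivFin T
    have hcard : Nat.card T ≤ M := by
      have h1 : Nat.card T ≤ Nat.card (Fin m) := Finite.card_subtype_le _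
      rw [Nat.card_fin] at h1
      exact h1.trans hm
    have huui : ∀ a b, uu a = uu b → a = b := by
      intro a b hab
      apply Subtype.ext
      apply ht
      rw [huu a, huu b, hab]
    -- tuples of the structure with the points
    have hz1 : ∀ (l : Fin τ.m) (z : Fin (τ.ar l) → Fin m) (f : Fin (τ.ar l) → Option (Fin q))
        (z0 : {i // f i = none} → U), (fun i => t (z i)) = fl f z0 →
        ∃ z1 : {i // f i = none} → Fin (Nat.card T), (∀ i, (uu (e0.symm (z1 i)) : U) = z0 i) ∧
          ∀ i, ((e0.symm (z1 i) : T) : Fin m) = z i := by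
      intro l z f z0 e
      have h1 : ∀ i : {i // f i = none}, t (z i) = Sum.inl (z0 i) := fun i => by
        have h2 := congrFun e i
        rw [fl_none] at h2
        exact h2
      refine ⟨fun i => e0 ⟨z i, z0 i, h1 i⟩, fun i => ?_, fun i => ?_⟩
      · rw [Equiv.symm_apply_apply]
        have h3 := huu ⟨z i, z0 i, h1 i⟩
        simp only [h1] at h3
        exact (Sum.inl.inj h3).symm
      · rw [Equiv.symm_apply_apply]
    obtain ⟨g0, hg0i, hg0⟩ := hX (Nat.card T) (fun i => ((uu (e0.symm i) : U) : Fin n)) hcard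
      (fun x y hxy => e0.symm.injective (huui _ _ (Subtype.ext hxy))) (by
        intro x y hxy
        have hne : ((e0.symm x : T) : Fin m) ≠ (e0.symm y : T) := fun h =>
          hxy (e0.symm.injective (Subtype.ext h))
        obtain ⟨l, z, hz, ⟨i, hi⟩, j, hj⟩ := hirr _ _ hne
        have hz' : 𝕐 l (fun i => t (z i)) := hz
        rcases hz' with ⟨f, h, z0, e, hR⟩ | ⟨w', e, -⟩
        · obtain ⟨z1, h1, h2⟩ := hz1 l z f z0 e
          have hfn : ∀ i, ∀ x : Fin (Nat.card T), z i = ((e0.symm x : T) : Fin m) →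
              ∃ h : f i = none, z1 ⟨i, h⟩ = x := by
            intro i x hi
            have h3 := congrFun e i
            by_cases hf : f i = none
            · refine ⟨hf, ?_⟩
              apply e0.symm.injective
              apply Subtype.ext
              rw [h2 ⟨i, hf⟩]
              exact hi
            · obtain ⟨j', hf⟩ := Option.ne_none_iff_exists'.1 hf
              beta_reduce at h3
              rw [fl_some z0 hf, hi, huu] at h3
              exact absurd h3 (by simp)
          obtain ⟨hi1, hi2⟩ := hfn i x hi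
          obtain ⟨hj1, hj2⟩ := hfn j y hj
          refine ⟨Sum.inl ⟨⟨l, f⟩, h⟩, z1, ?_, ⟨⟨i, hi1⟩, hi2⟩, ⟨j, hj1⟩, hj2⟩
          have h4 : (fun i => ((uu (e0.symm (z1 i)) : U) : Fin n)) =
              fun i => (z0 i : Fin n) := funext fun i => congrArg Subtype.val (h1 i)
          exact (iff_of_eq (congrArg (R (Sum.inl ⟨⟨l, f⟩, h⟩)) h4)).2 hR
        · have h3 := congrFun e i
          simp only [hi, huu] at h3
          exact absurd h3 (by simp))
    have hD : ∀ x, ∃ d, g0 x = Sum.inl d := by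
      intro x
      rcases hx : g0 x with d | ⟨j, k⟩
      · exact ⟨d, rfl⟩
      · exact absurd ((hg0 (Sum.inr j) (fun _ => x)).2 ⟨k, hx⟩) ((uu (e0.symm x)).2 j)
    choose d hd using hD
    have hG : ∀ a, ∃ b : B, (∀ h : (∃ u, t a = Sum.inl u), b = d (e0 ⟨a, h⟩)) ∧
        ∀ j, t a = Sum.inr j → b = cst j := by
      intro a
      by_cases ha : ∃ u, t a = Sum.inl u
      · obtain ⟨u, hu⟩ := id ha
        exact ⟨d (e0 ⟨a, ha⟩), fun _ => rfl, fun j hj => by
          rw [hu] at hj
          exact absurd hj (by simp)⟩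
      · obtain ⟨j, hj⟩ : ∃ j, t a = Sum.inr j := by
          rcases h : t a with u | j
          · exact absurd ⟨u, h⟩ ha
          · exact ⟨j, rfl⟩
        exact ⟨cst j, fun h => absurd h ha, fun j' hj' => by
          rw [Sum.inr.inj (hj.symm.trans hj')]⟩
    choose G hG1 hG2 using hG
    refine ⟨G, ?_, ?_⟩
    · intro a b hab
      rcases ha : t a with u | j
      · rcases hb : t b with u' | j'
        · rw [hG1 a ⟨u, ha⟩, hG1 b ⟨u', hb⟩] at hab
          have h1 : g0 (e0 ⟨a, u, ha⟩) = g0 (e0 ⟨b, u', hb⟩) := by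
            rw [hd, hd, Subtype.ext hab]
          exact Subtype.ext_iff.1 (e0.injective (hg0i h1))
        · rw [hG1 a ⟨u, ha⟩, hG2 b j' hb] at hab
          exact absurd hab ((d _).2 j')
      · rcases hb : t b with u' | j'
        · rw [hG2 a j ha, hG1 b ⟨u', hb⟩] at hab
          exact absurd hab.symm ((d _).2 j)
        · rw [hG2 a j ha, hG2 b j' hb] at hab
          apply ht
          rw [ha, hb, hc hab]
    · intro l z
      change 𝕐 l (fun i => t (z i)) ↔ 𝔹 l (fun i => G (z i))
      obtain ⟨f, z0, e⟩ := exists_fl (fun i => t (z i))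
      by_cases hf : ∃ i, f i = none
      · obtain ⟨z1, h1, h2⟩ := hz1 l z f z0 e
        rw [e, hY1 l f hf z0]
        have h4 : (fun i => ((uu (e0.symm (z1 i)) : U) : Fin n)) =
            fun i => (z0 i : Fin n) := funext fun i => congrArg Subtype.val (h1 i)
        have h5 := hg0 (Sum.inl ⟨⟨l, f⟩, hf⟩) z1
        refine (iff_of_eq (congrArg (R (Sum.inl ⟨⟨l, f⟩, hf⟩)) h4)).symm.trans (h5.trans ?_)
        have h6 : (fun i => Sum.elim (cl cst) cst (fl f (fun i => g0 (z1 i)) i)) =
            fun i => G (z i) := by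
          funext i
          have h7 := congrFun e i
          rcases hfi : f i with _ | j
          · have h8 := fl_none (fun i => g0 (z1 i)) ⟨i, hfi⟩
            have h9 := fl_none z0 ⟨i, hfi⟩
            simp only at h8 h9
            rw [h8, hd]
            rw [h9] at h7
            rw [hG1 (z i) ⟨_, h7⟩]
            simp only [Sum.elim_inl, cl]
            have h10 : z1 ⟨i, hfi⟩ = e0 ⟨z i, _, h7⟩ := by
              apply e0.symm.injective
              apply Subtype.ext
              rw [h2 ⟨i, hfi⟩, Equiv.symm_apply_apply]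
            rw [h10]
          · rw [fl_some _ hfi] at h7 ⊢
            rw [hG2 (z i) j h7]
            rfl
        constructor
        · intro h7
          have h8 := h7.2
          change 𝔹 l (fun i => Sum.elim (cl cst) cst (fl f (fun i => g0 (z1 i)) i)) at h8
          rw [h6] at h8
          exact h8
        · intro h7
          refine ⟨fun i => ⟨_, hd _⟩, ?_⟩
          change 𝔹 l (fun i => Sum.elim (cl cst) cst (fl f (fun i => g0 (z1 i)) i))
          rw [h6]
          exact h7
      · obtain ⟨w', hw'⟩ := fl_all hf z0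
        have e' : (fun i => t (z i)) = fun i => Sum.inr (w' i) := by
          rw [e]
          exact funext hw'
        rw [e', hY2]
        have h6 : (fun i => G (z i)) = fun i => cst (w' i) :=
          funext fun i => hG2 (z i) (w' i) (congrFun e' i)
        rw [h6]
  obtain ⟨e, he1, he2⟩ : ∃ e : U ⊕ Fin q → B, Injective e ∧
      ∀ (l : Fin τ.m) (w : Fin (τ.ar l) → U ⊕ Fin q), 𝕐 l w ↔ 𝔹 l (fun i => e (w i)) := by
    let eq := Finite.equivFin (U ⊕ Fin q)
    obtain ⟨g, hg1, hg2⟩ := hF (Nat.card (U ⊕ Fin q)) (pull 𝕐 eq.symm) (by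
      intro m s hm hs hirr
      exact hpart m (fun i => eq.symm (s i)) hm (eq.symm.injective.comp hs) hirr)
    refine ⟨fun a => g (eq a), hg1.comp eq.injective, fun l w => ?_⟩
    have h1 := hg2 l (fun i => eq (w i))
    rw [← h1]
    unfold pull
    simp only [Equiv.symm_apply_apply]
  obtain ⟨g, hg, hgc⟩ := exists_aut hH (fun j => e (Sum.inr j)) cst
    (fun i j => by rw [he1.eq_iff, hc.eq_iff, Sum.inr.injEq]) (fun l w => by
      rw [← hY2, he2])
  have he3 : ∀ (l : Fin τ.m) (w : Fin (τ.ar l) → U ⊕ Fin q), 𝕐 l w ↔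
      𝔹 l (fun i => g (e (w i))) := fun l w => (he2 l w).trans (hg l _)
  have hFex : ∀ a : Fin n, ∃ b : BP cst, (∀ h : (∀ j, ¬ R (Sum.inr j) (fun _ => a)),
      ∃ h', b = Sum.inl ⟨g (e (Sum.inl ⟨a, h⟩)), h'⟩) ∧
      ∀ j, R (Sum.inr j) (fun _ => a) → b = Sum.inr (j, (a : ℕ)) := by
    intro a
    by_cases h : ∀ j, ¬ R (Sum.inr j) (fun _ => a)
    · refine ⟨Sum.inl ⟨g (e (Sum.inl ⟨a, h⟩)), fun j hj => ?_⟩, fun _ => ⟨_, rfl⟩,
        fun j hj => absurd hj (h j)⟩
      rw [← hgc j] at hj
      exact absurd (he1 (g.injective hj)) (by simp)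
    · push Not at h
      obtain ⟨j, hj⟩ := h
      exact ⟨Sum.inr (j, a), fun h => absurd hj (h j), fun j' hj' => by rw [hun a j j' hj hj']⟩
  choose F hF1 hF2 using hFex
  refine ⟨F, emb_strOn.2 ⟨?_, ?_⟩⟩
  · intro a b hab
    by_cases ha : ∀ j, ¬ R (Sum.inr j) (fun _ => a)
    · obtain ⟨ha1, ha2⟩ := hF1 a ha
      by_cases hb : ∀ j, ¬ R (Sum.inr j) (fun _ => b)
      · obtain ⟨hb1, hb2⟩ := hF1 b hb
        rw [ha2, hb2] at hab
        have h1 := he1 (g.injective (congrArg Subtype.val (Sum.inl.inj hab)))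
        exact congrArg Subtype.val (Sum.inl.inj h1)
      · push Not at hb
        obtain ⟨j, hj⟩ := hb
        rw [ha2, hF2 b j hj] at hab
        exact absurd hab (by simp)
    · push Not at ha
      obtain ⟨j, hj⟩ := ha
      by_cases hb : ∀ j, ¬ R (Sum.inr j) (fun _ => b)
      · obtain ⟨hb1, hb2⟩ := hF1 b hb
        rw [hb2, hF2 a j hj] at hab
        exact absurd hab (by simp)
      · push Not at hb
        obtain ⟨j', hj'⟩ := hb
        rw [hF2 a j hj, hF2 b j' hj'] at hab
        simp only [Sum.inr.injEq, Prod.mk.injEq] at hab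
        exact Fin.ext hab.2
  · rintro (p | j) z
    · have key' : ∀ z0 : ArS (Sum.inl p : Sy τ q) → U, R (Sum.inl p) (fun i => (z0 i : Fin n)) ↔
          RP 𝔹 cst (Sum.inl p) (fun i => F (z0 i)) := by
        intro z0
        have h1 := hY1 p.1.1 p.1.2 p.2 z0
        have h2 : (fun i => Sum.elim (cl cst) cst (fl p.1.2 (fun i => F (z0 i)) i)) =
            fun i => g (e (fl p.1.2 z0 i)) := by
          funext i
          rw [fl_map (fun u : U => F u) z0]
          beta_reduce
          rcases fl p.1.2 z0 i with u | j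
          · obtain ⟨h3, h4⟩ := hF1 u u.2
            simp only [Sum.map_inl, Sum.elim_inl, cl, h4]
            rfl
          · simp only [Sum.map_inr, Sum.elim_inr, id_eq]
            exact (hgc j).symm
        rw [← h1, he3, ← h2]
        refine ⟨fun h3 => ⟨fun i => ?_, h3⟩, fun h3 => h3.2⟩
        obtain ⟨h4, h5⟩ := hF1 (z0 i) (z0 i).2
        exact ⟨_, h5⟩
      constructor
      · intro hz
        exact (key' (fun i => ⟨z i, htup p z hz i⟩)).1 hz
      · intro hz
        have h1 : ∀ i j, ¬ R (Sum.inr j) (fun _ => z i) := by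
          intro i j hj
          obtain ⟨d, hd⟩ := hz.1 i
          have hd' : F (z i) = Sum.inl d := hd
          rw [hF2 (z i) j hj] at hd'
          exact absurd hd' (by simp)
        exact (key' (fun i => ⟨z i, h1 i⟩)).2 hz
    · change R (Sum.inr j) z ↔ ∃ k, F (z ()) = Sum.inr (j, k)
      have hz : z = fun _ => z () := rfl
      constructor
      · intro h
        exact ⟨_, hF2 (z ()) j h⟩
      · rintro ⟨k, hk⟩
        by_cases ha : ∀ j, ¬ R (Sum.inr j) (fun _ => z ())
        · obtain ⟨h1, h2⟩ := hF1 (z ()) ha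
          rw [h2] at hk
          exact absurd hk (by simp)
        · push Not at ha
          obtain ⟨j', hj'⟩ := ha
          rw [hF2 (z ()) j' hj'] at hk
          simp only [Sum.inr.injEq, Prod.mk.injEq] at hk
          rw [← hk.1]
          exact hj'

end

end Pool.Agent.H50.PT
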