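import Pool.Agent.H50.PT.DF

/-!
# Structures over finitely many points: homogeneity
-/

set_option autoImplicit false

namespace Pool.Agent.H50.PT

open Pool.Agent.H68.BP Pool.Agent.H58.SF Pool.Agent.H53.GC Pool.Agent.H53.NR
open Function

theorem perm_ext (A : Set ℕ) (hA : A.Finite) (h : A → ℕ) (hh : Injective h) :
    ∃ σ : ℕ ≃ ℕ, ∀ a : A, σ a = h a := by
  classical
  have : Finite A := hA.to_subtype
  have h1 : Infinite (Aᶜ : Set ℕ) := hA.infinite_compl.to_subtype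
  have h2 : Infinite ((Set.range h)ᶜ : Set ℕ) := (Set.finite_range h).infinite_compl.to_subtype
  obtain ⟨e2⟩ : Nonempty ((Aᶜ : Set ℕ) ≃ ((Set.range h)ᶜ : Set ℕ)) := nonempty_equiv_of_countable
  refine ⟨(Equiv.Set.sumCompl A).symm.trans ((Equiv.sumCongr (Equiv.ofInjective h hh) e2).trans
    (Equiv.Set.sumCompl (Set.range h))), fun a => ?_⟩
  simp only [Equiv.trans_apply]
  rw [Equiv.Set.sumCompl_symm_apply_of_mem a.2]
  simp

section

variable {τ : Sig} {B : Type} {q : ℕ} {𝔹 : Str τ B} {cst : Fin q → B}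

/-- An automorphism which fixes the points, with permutations of the copies. -/
theorem exists_ext {g : B ≃ B} (hg : IsAut 𝔹 g) (hgc : ∀ j, g (cst j) = cst j)
    (σ : Fin q → ℕ ≃ ℕ) : ∃ g' : BP cst ≃ BP cst, IsAut (BS 𝔹 cst) g' ∧
      (∀ b, cl cst (g' b) = g (cl cst b)) ∧ (∀ d, ∃ d', g' (Sum.inl d) = Sum.inl d') ∧
      ∀ j k, g' (Sum.inr (j, k)) = Sum.inr (j, σ j k) := by
  let gD : Dd cst ≃ Dd cst := g.subtypeEquiv (fun b => by
    refine forall_congr' fun j => not_congr ?_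
    rw [← hgc j, g.injective.eq_iff, hgc j])
  let g' : BP cst ≃ BP cst := Equiv.sumCongr gD (Equiv.prodShear (Equiv.refl _) σ)
  have hl : ∀ d, g' (Sum.inl d) = Sum.inl (gD d) := fun d => rfl
  have hr : ∀ j k, g' (Sum.inr (j, k)) = Sum.inr (j, σ j k) := fun j k => rfl
  have hcl : ∀ b, cl cst (g' b) = g (cl cst b) := by
    rintro (d | ⟨j, k⟩)
    · rfl
    · rw [hr]
      simp only [cl, Sum.elim_inr]
      exact (hgc j).symm
  refine ⟨g', aut_strOn.2 ?_, hcl, fun d => ⟨_, hl d⟩, hr⟩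
  rintro (p | j) x
  · have h1 : (fun i => Sum.elim (cl cst) cst (fl p.1.2 (fun i => g' (x i)) i)) =
        fun i => g (Sum.elim (cl cst) cst (fl p.1.2 x i)) := by
      funext i
      rw [fl_map g' x]
      beta_reduce
      rcases fl p.1.2 x i with b | j
      · exact hcl b
      · exact (hgc j).symm
    have h2 : ∀ b : BP cst, (∃ d, b = Sum.inl d) ↔ ∃ d, g' b = Sum.inl d := by
      rintro (d | ⟨j, k⟩)
      · exact ⟨fun _ => ⟨_, hl d⟩, fun _ => ⟨d, rfl⟩⟩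
      · rw [hr]
        simp
    change ((∀ i, ∃ d, x i = Sum.inl d) ∧
      𝔹 p.1.1 (fun i => Sum.elim (cl cst) cst (fl p.1.2 x i))) ↔
      ((∀ i, ∃ d, g' (x i) = Sum.inl d) ∧
        𝔹 p.1.1 (fun i => Sum.elim (cl cst) cst (fl p.1.2 (fun i => g' (x i)) i)))
    rw [h1]
    exact and_congr (forall_congr' fun i => h2 _) (hg _ _)
  · change (∃ k, x () = Sum.inr (j, k)) ↔ ∃ k, g' (x ()) = Sum.inr (j, k)
    rcases x () with d | ⟨j', k'⟩
    · rw [hl]
      simp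
    · rw [hr]
      simp only [Sum.inr.injEq, Prod.mk.injEq, exists_and_left, exists_eq', and_true]

theorem hom_BS (hH : Homogeneous 𝔹) : Homogeneous (BS 𝔹 cst) := by
  classical
  intro F f hf
  have hf' : Injective f ∧ ∀ (s : Sy τ q) (x : ArS s → F), RP 𝔹 cst s (fun i => (x i : BP cst)) ↔
      RP 𝔹 cst s (fun i => f (x i)) :=
    (emb_strOn (R := fun (s : Sy τ q) (x : ArS s → F) => RP 𝔹 cst s (fun i => (x i : BP cst)))).1 hf
  obtain ⟨g, hg, hgc, hgx⟩ := key hH (fun i : F => (i : BP cst)) f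
    (fun i j => by rw [hf'.1.eq_iff, Subtype.ext_iff]) hf'.2
  have hkind : ∀ (x : F) (j : Fin q), (∃ k, (x : BP cst) = Sum.inr (j, k)) ↔
      ∃ k, f x = Sum.inr (j, k) := fun x j => hf'.2 (Sum.inr j) (fun _ => x)
  have hσ : ∀ j : Fin q, ∃ σ : ℕ ≃ ℕ, ∀ (k : ℕ) (h : (Sum.inr (j, k) : BP cst) ∈ F),
      f ⟨_, h⟩ = Sum.inr (j, σ k) := by
    intro j
    let A : Set ℕ := {k | (Sum.inr (j, k) : BP cst) ∈ F}
    have hA : A.Finite := by
      refine Set.Finite.preimage (f := fun k : ℕ => (Sum.inr (j, k) : BP cst)) ?_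
        F.finite_toSet
      intro a _ b _ hab
      simpa using hab
    have h1 : ∀ a : A, ∃ k, f ⟨_, a.2⟩ = Sum.inr (j, k) := fun a =>
      (hkind ⟨_, a.2⟩ j).1 ⟨a, rfl⟩
    choose h hh using h1
    obtain ⟨σ, hσ⟩ := perm_ext A hA h (by
      intro a b hab
      have h2 := hh a
      rw [hab, ← hh b] at h2
      have h3 := Subtype.ext_iff.1 (hf'.1 h2)
      simp only [Sum.inr.injEq, Prod.mk.injEq, true_and] at h3
      exact Subtype.ext h3)
    exact ⟨σ, fun k hk => by rw [hh ⟨k, hk⟩, ← hσ ⟨k, hk⟩]⟩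
  choose σ hσ using hσ
  obtain ⟨g', hg', h1, h2, h3⟩ := exists_ext hg hgc σ
  refine ⟨g', hg', ?_⟩
  rintro ⟨d | ⟨j, k⟩, hx⟩
  · obtain ⟨d', hd'⟩ := h2 d
    rcases hfx : f ⟨Sum.inl d, hx⟩ with e | ⟨j, k⟩
    · have h4 := hgx ⟨Sum.inl d, hx⟩
      have h5 := h1 (Sum.inl d)
      rw [hd'] at h5
      rw [hfx] at h4
      have h6 := h5.trans h4
      simp only [cl, Sum.elim_inl] at h6
      change g' (Sum.inl d) = _
      rw [hd', Subtype.ext h6]
    · obtain ⟨k', hk'⟩ := (hkind ⟨Sum.inl d, hx⟩ j).2 ⟨k, hfx⟩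
      exact absurd hk' (by simp)
  · rw [hσ j k hx]
    exact h3 j k

end

end Pool.Agent.H50.PT
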