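import Pool.Agent.H44.CM.Defs

/-!
# Structures with completions: tournaments
-/

set_option autoImplicit false

namespace Pool.Agent.H50.PT

open Pool.Agent.H68.BP Pool.Agent.H53.NR
open Pool.Agent.H44.CM (Completable)
open Function

/-- the signature with one binary symbol -/
abbrev Bin : Sig := ⟨1, fun _ => 2⟩

/-- The structure with one binary relation is a tournament. -/
def Tournament {W : Type} (𝕏 : Str Bin W) : Prop :=
  (∀ x, ¬ 𝕏 0 ![x, x]) ∧ ∀ x y, x ≠ y → (𝕏 0 ![x, y] ↔ ¬ 𝕏 0 ![y, x])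

/-- The universal tournament has completions. -/
theorem completable_tournament {B : Type} {𝔹 : Str Bin B} (h1 : Tournament 𝔹)
    (h2 : ∀ (n : ℕ) (𝕏 : Str Bin (Fin n)), Tournament 𝕏 → Embeds 𝕏 𝔹) :
    Completable 𝔹 := by
  classical
  refine ⟨2, fun n 𝕏 G hG hX => ?_⟩
  have hloop : ∀ x, ¬ 𝕏 0 ![x, x] := by
    intro x hx
    obtain ⟨f, hf⟩ := hX 1 (fun _ => x) (by norm_num) (fun a b _ => Subsingleton.elim a b)
      (fun a b hab => absurd (Subsingleton.elim a b) hab)
    have h3 := (hf.2 0 (fun _ => 0)).1 (by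
      change 𝕏 0 (fun _ => x)
      have h4 : (fun _ : Fin 2 => x) = ![x, x] := by
        funext i
        fin_cases i <;> rfl
      rw [h4]
      exact hx)
    refine h1.1 (f 0) ?_
    have h4 : (fun _ : Fin 2 => f 0) = ![f 0, f 0] := by
      funext i
      fin_cases i <;> rfl
    rw [← h4]
    exact h3
  have hedge : ∀ x y, x ≠ y → G x y → (𝕏 0 ![x, y] ↔ ¬ 𝕏 0 ![y, x]) := by
    intro x y hxy hadj
    obtain ⟨f, hf⟩ := hX 2 ![x, y] le_rfl (by
      intro a b hab
      fin_cases a <;> fin_cases b <;>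
        first | rfl | exact absurd hab hxy | exact absurd hab.symm hxy) (by
      intro a b hab
      fin_cases a <;> fin_cases b <;>
        first | exact absurd rfl hab | exact hadj | exact hG _ _ hadj)
    have h3 : ∀ a b : Fin 2, 𝕏 0 ![(![x, y] : Fin 2 → Fin n) a, (![x, y] : Fin 2 → Fin n) b] ↔
        𝔹 0 ![f a, f b] := by
      intro a b
      have h5 : pull 𝕏 ![x, y] 0 ![a, b] ↔ 𝔹 0 (fun i : Fin 2 => f ((![a, b] : Fin 2 → Fin 2) i)) :=
        hf.2 0 ![a, b]
      have h6 : (fun i : Fin 2 => (![x, y] : Fin 2 → Fin n) ((![a, b] : Fin 2 → Fin 2) i)) =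
          ![(![x, y] : Fin 2 → Fin n) a, (![x, y] : Fin 2 → Fin n) b] := by
        funext i
        fin_cases i <;> rfl
      have h7 : (fun i : Fin 2 => f ((![a, b] : Fin 2 → Fin 2) i)) = ![f a, f b] := by
        funext i
        fin_cases i <;> rfl
      rw [← h6, ← h7]
      exact h5
    have h4 := h1.2 (f 0) (f 1) (fun h => absurd (hf.1 h) (by decide))
    exact (h3 0 1).trans (h4.trans (not_congr (h3 1 0).symm))
  let 𝕐 : Str Bin (Fin n) := fun _ z =>
    (G ((z : Fin 2 → Fin n) 0) ((z : Fin 2 → Fin n) 1) ∧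
      (z : Fin 2 → Fin n) 0 ≠ (z : Fin 2 → Fin n) 1 ∧ 𝕏 0 z) ∨
    (¬ G ((z : Fin 2 → Fin n) 0) ((z : Fin 2 → Fin n) 1) ∧
      (z : Fin 2 → Fin n) 0 < (z : Fin 2 → Fin n) 1)
  have hY : ∀ x y, 𝕐 0 ![x, y] ↔ (G x y ∧ x ≠ y ∧ 𝕏 0 ![x, y]) ∨ (¬ G x y ∧ x < y) :=
    fun x y => Iff.rfl
  obtain ⟨f, hf⟩ := h2 n 𝕐 ⟨fun x hx => by
      rcases (hY x x).1 hx with h | h
      · exact h.2.1 rfl
      · exact lt_irrefl _ h.2, fun x y hxy => by
      rw [hY, hY]
      by_cases hg : G x y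
      · have hg' := hG _ _ hg
        have h3 := hedge x y hxy hg
        simp only [hg, hg', true_and, not_true, false_and, or_false, ne_eq, hxy, Ne.symm hxy,
          not_false_eq_true]
        exact h3
      · have hg' : ¬ G y x := fun h => hg (hG _ _ h)
        simp only [hg, hg', false_and, not_false_eq_true, true_and, false_or]
        exact ⟨fun h => not_lt.2 h.le, fun h => lt_of_le_of_ne (not_lt.1 h) hxy⟩⟩
  refine ⟨f, fun i j hij _ h => hij (hf.1 h), fun l z hz => ?_⟩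
  obtain rfl : l = 0 := Subsingleton.elim l 0
  rw [← hf.2 0 z]
  have hz' : z = ![(z : Fin 2 → Fin n) 0, (z : Fin 2 → Fin n) 1] := by
    funext i
    fin_cases i <;> rfl
  rw [hz', hY]
  by_cases he : (z : Fin 2 → Fin n) 0 = (z : Fin 2 → Fin n) 1
  · rw [he]
    refine ⟨fun h => ?_, fun h => absurd h (hloop _)⟩
    rcases h with h | h
    · exact h.2.2
    · exact absurd h.2 (lt_irrefl _)
  · have hg : G ((z : Fin 2 → Fin n) 0) ((z : Fin 2 → Fin n) 1) := (hz 0 1).resolve_left he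
    exact ⟨fun h => (h.resolve_right fun h => h.1 hg).2.2, fun h => Or.inl ⟨hg, he, h⟩⟩

end Pool.Agent.H50.PT
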